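import Pool.Agent.FermT.Defs

/-!
# FT10: the odd quadratic characters modulo `3` and `4`

Compose `ZMod.unitsMap (h : d ∣ m) : (ZMod m)ˣ →* (ZMod d)ˣ` with a homomorphism
`(ZMod 3)ˣ →* ℤˣ` (the map which sends `1` to `1` and `-1` to `-1`: all identities by `decide`),
same for `4`. `(u : ZMod m).val % d = ((ZMod.unitsMap h u : (ZMod d)ˣ) : ZMod d).val`
(`ZMod.unitsMap_val`, `ZMod.cast_eq_val`, `ZMod.val_natCast`).
-/

set_option autoImplicit false

namespace Pool.Agent.FermT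

/-- the odd character modulo `3` -/
private def chiF3 : (ZMod 3)ˣ →* ℤˣ where
  toFun u := if u = 1 then 1 else -1
  map_one' := if_pos rfl
  map_mul' := by decide

/-- the odd character modulo `4` -/
private def chiF4 : (ZMod 4)ˣ →* ℤˣ where
  toFun u := if u = 1 then 1 else -1
  map_one' := if_pos rfl
  map_mul' := by decide

private theorem chi_val {m d : ℕ} [NeZero m] (h : d ∣ m) (u : (ZMod m)ˣ) :
    (u : ZMod m).val % d = ((ZMod.unitsMap h u : (ZMod d)ˣ) : ZMod d).val := by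
  rw [ZMod.unitsMap_val, ZMod.cast_eq_val, ZMod.val_natCast]

theorem chi3 {m : ℕ} [NeZero m] (h : 3 ∣ m) : ∃ χ : (ZMod m)ˣ →* ℤˣ, χ (-1) = -1 ∧
    ∀ u : (ZMod m)ˣ, χ u = 1 ↔ (u : ZMod m).val % 3 = 1 := by
  refine ⟨chiF3.comp (ZMod.unitsMap h), ?_, fun u => ?_⟩
  · have h1 : ZMod.unitsMap h (-1) = -1 := by
      ext
      rw [ZMod.unitsMap_val, Units.val_neg, Units.val_one, ZMod.cast_neg h, ZMod.cast_one h]
      rfl
    rw [MonoidHom.comp_apply, h1]
    decide
  · rw [MonoidHom.comp_apply, chi_val h]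
    generalize ZMod.unitsMap h u = v
    revert v
    decide

theorem chi4 {m : ℕ} [NeZero m] (h : 4 ∣ m) : ∃ χ : (ZMod m)ˣ →* ℤˣ, χ (-1) = -1 ∧
    (∀ u : (ZMod m)ˣ, χ u = 1 ↔ (u : ZMod m).val % 4 = 1) ∧
    ∀ u : (ZMod m)ˣ, ZMod.castHom h (ZMod 4) (u : ZMod m) = (((χ u : ℤˣ) : ℤ) : ZMod 4) := by
  refine ⟨chiF4.comp (ZMod.unitsMap h), ?_, fun u => ?_, fun u => ?_⟩
  · have h1 : ZMod.unitsMap h (-1) = -1 := by
      ext
      rw [ZMod.unitsMap_val, Units.val_neg, Units.val_one, ZMod.cast_neg h, ZMod.cast_one h]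
      rfl
    rw [MonoidHom.comp_apply, h1]
    decide
  · rw [MonoidHom.comp_apply, chi_val h]
    generalize ZMod.unitsMap h u = v
    revert v
    decide
  · rw [MonoidHom.comp_apply]
    have h2 : ZMod.castHom h (ZMod 4) (u : ZMod m) =
        ((ZMod.unitsMap h u : (ZMod 4)ˣ) : ZMod 4) := by
      rw [ZMod.unitsMap_val, ZMod.castHom_apply]
    rw [h2]
    generalize ZMod.unitsMap h u = v
    revert v
    decide

end Pool.Agent.FermT
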