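import Pool.Agent.FermT.Defs

/-!
# FT2: two sums over the units

Let `W v = 2 * w v + (if χ v = 1 then c else 0)` and `S g u = orb P f g u = ∑ j < f, g (P ^ (-j) u)`.

* `comb_pos`: `∑ u, χ u * S W u = ∑ j < f, ∑ v, χ (P ^ j v) * W v = f * ∑ v, χ v * W v` (substitute
  `u = P ^ j v`; `χ P = 1`). With `u ↦ -u` and `hW`: `∑ u, χ u * S W u = ∑ u, χ (-u) * S W (-u)
  = - ∑ u, χ u * S W u`, so it is zero, and `∑ v, χ v * W v = 0` as `f ≠ 0`. So
  `2 * ∑ v, w v * χ v + c * #{v | χ v = 1} = 0`, and `2 * #{v | χ v = 1}` is the number of units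
  (`v ↦ -v` exchanges `χ v = 1` and `χ v = -1`; `Int.units_eq_one_or`).
* `comb_neg`: for each `v` the number of `j < f` with `χ (P ^ (-j) v) = 1` is `f / 2`: `χ (P ^ (-j) v) =
  (-1) ^ j * χ v`, and `f` is even since `(-1) ^ f = χ (P ^ f) = 1`. So `S W u = 2 * S w u + c * (f / 2)`
  for all `u`.
-/

set_option autoImplicit false

namespace Pool.Agent.FermT

open Finset Pool.Stick Pool.Agent.FermD

variable {m : ℕ} [NeZero m]

private theorem Comb_alt (ε : ℤˣ) (c : ℤ) (k : ℕ) :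
    (∑ j ∈ range (2 * k), if (-1 : ℤˣ) ^ j * ε = 1 then c else 0) = k * c := by
  induction k with
  | zero => simp
  | succ k ih =>
    rw [show 2 * (k + 1) = 2 * k + 1 + 1 from by ring, sum_range_succ, sum_range_succ, ih]
    have h1 : (-1 : ℤˣ) ^ (2 * k) = 1 := by
      rw [pow_mul, neg_one_sq, one_pow]
    rw [pow_succ, h1, one_mul, one_mul]
    rcases Int.units_eq_one_or ε with h | h
    · rw [h]
      have h2 : ¬ ((-1 : ℤˣ) * 1 = 1) := by decide
      rw [if_pos rfl, if_neg h2]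
      push_cast
      ring
    · rw [h]
      have h2 : ¬ ((-1 : ℤˣ) = 1) := by decide
      have h3 : (-1 : ℤˣ) * -1 = 1 := by decide
      rw [if_neg h2, if_pos h3]
      push_cast
      ring

omit [NeZero m] in
private theorem Comb_even {P : (ZMod m)ˣ} {f : ℕ} (hf : P ^ f = 1) (χ : (ZMod m)ˣ →* ℤˣ)
    (hP : χ P = -1) : ∃ k, f = 2 * k := by
  have h1 : (-1 : ℤˣ) ^ f = 1 := by
    rw [← hP, ← map_pow, hf, map_one]
  rcases Nat.even_or_odd f with h | h
  · obtain ⟨k, hk⟩ := h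
    exact ⟨k, by omega⟩
  · rw [h.neg_one_pow] at h1
    exact absurd h1 (by decide)

theorem comb_pos {P : (ZMod m)ˣ} {f : ℕ} (hf0 : f ≠ 0) (χ : (ZMod m)ˣ →* ℤˣ) (h1 : χ (-1) = -1)
    (hP : χ P = 1) (w : (ZMod m)ˣ → ℤ) (c : ℤ)
    (hW : ∀ u, orb P f (fun v => 2 * w v + if χ v = 1 then c else 0) (-u) =
      orb P f (fun v => 2 * w v + if χ v = 1 then c else 0) u) :
    4 * ∑ u, w u * ((χ u : ℤˣ) : ℤ) = - c * (Fintype.card (ZMod m)ˣ : ℤ) := by
  set W : (ZMod m)ˣ → ℤ := fun v => 2 * w v + if χ v = 1 then c else 0 with hWd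
  have h1a : ∑ u, ((χ u : ℤˣ) : ℤ) * orb P f W u = f * ∑ v, ((χ v : ℤˣ) : ℤ) * W v := by
    unfold orb
    simp_rw [mul_sum]
    rw [sum_comm]
    have e1 : ∀ j ∈ range f, ∑ u, ((χ u : ℤˣ) : ℤ) * W ((P ^ j)⁻¹ * u) =
        ∑ v, ((χ v : ℤˣ) : ℤ) * W v := by
      intro j _
      rw [← Equiv.sum_comp (Equiv.mulLeft (P ^ j))
        (fun u => ((χ u : ℤˣ) : ℤ) * W ((P ^ j)⁻¹ * u))]
      refine sum_congr rfl fun v _ => ?_
      simp only [Equiv.coe_mulLeft]
      rw [inv_mul_cancel_left, map_mul, map_pow, hP, one_pow, one_mul]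
    rw [sum_congr rfl e1, sum_const, card_range, nsmul_eq_mul, mul_sum]
  have h2a : ∑ u, ((χ u : ℤˣ) : ℤ) * orb P f W u = -∑ u, ((χ u : ℤˣ) : ℤ) * orb P f W u := by
    conv_lhs => rw [← Equiv.sum_comp (Equiv.neg (ZMod m)ˣ)
      (fun u => ((χ u : ℤˣ) : ℤ) * orb P f W u)]
    rw [← sum_neg_distrib]
    refine sum_congr rfl fun v _ => ?_
    simp only [Equiv.neg_apply]
    rw [hW v]
    have e2 : χ (-v) = -χ v := by
      rw [neg_eq_neg_one_mul, map_mul, h1, neg_one_mul]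
    rw [e2, Units.val_neg, neg_mul]
  have h3a : ∑ v, ((χ v : ℤˣ) : ℤ) * W v = 0 := by
    have e3 : (f : ℤ) * ∑ v, ((χ v : ℤˣ) : ℤ) * W v = 0 := by
      rw [← h1a]
      linarith
    rcases mul_eq_zero.1 e3 with h | h
    · exact absurd (by exact_mod_cast h) hf0
    · exact h
  have h4a : ∑ v, ((χ v : ℤˣ) : ℤ) * W v = 2 * ∑ u, w u * ((χ u : ℤˣ) : ℤ) +
      c * ∑ v, (if χ v = 1 then (1 : ℤ) else 0) := by
    rw [mul_sum, mul_sum, ← sum_add_distrib]
    refine sum_congr rfl fun v _ => ?_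
    rw [hWd]
    simp only
    by_cases h : χ v = 1
    · rw [if_pos h, if_pos h, h]
      push_cast
      ring
    · rw [if_neg h, if_neg h]
      ring
  have h5a : 2 * ∑ v : (ZMod m)ˣ, (if χ v = 1 then (1 : ℤ) else 0) =
      (Fintype.card (ZMod m)ˣ : ℤ) := by
    have e4 : ∑ v : (ZMod m)ˣ, (if χ v = 1 then (1 : ℤ) else 0) =
        ∑ v : (ZMod m)ˣ, (if χ v = 1 then (0 : ℤ) else 1) := by
      conv_lhs => rw [← Equiv.sum_comp (Equiv.neg (ZMod m)ˣ)
        (fun v => if χ v = 1 then (1 : ℤ) else 0)]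
      refine sum_congr rfl fun v _ => ?_
      simp only [Equiv.neg_apply]
      have e2 : χ (-v) = -χ v := by
        rw [neg_eq_neg_one_mul, map_mul, h1, neg_one_mul]
      rw [e2]
      rcases Int.units_eq_one_or (χ v) with h | h
      · rw [h, if_neg (by decide), if_pos rfl]
      · rw [h, neg_neg, if_pos rfl, if_neg (by decide)]
    rw [two_mul]
    nth_rewrite 2 [e4]
    rw [← sum_add_distrib, Fintype.card_eq_sum_ones]
    push_cast
    refine sum_congr rfl fun v _ => ?_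
    split_ifs <;> simp
  rw [h4a] at h3a
  rw [← h5a]
  linarith

theorem comb_neg {P : (ZMod m)ˣ} {f : ℕ} (hf : P ^ f = 1) (χ : (ZMod m)ˣ →* ℤˣ)
    (hP : χ P = -1) (w : (ZMod m)ˣ → ℤ) (c : ℤ)
    (hW : ∀ u, orb P f (fun v => 2 * w v + if χ v = 1 then c else 0) (-u) =
      orb P f (fun v => 2 * w v + if χ v = 1 then c else 0) u) (u : (ZMod m)ˣ) :
    orb P f w (-u) = orb P f w u := by
  obtain ⟨k, rfl⟩ := Comb_even hf χ hP
  have key : ∀ v : (ZMod m)ˣ, orb P (2 * k) (fun v => 2 * w v + if χ v = 1 then c else 0) v =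
      2 * orb P (2 * k) w v + k * c := by
    intro v
    unfold orb
    rw [sum_add_distrib, ← mul_sum, ← Comb_alt (χ v) c k]
    congr 1
    refine sum_congr rfl fun j _ => ?_
    have e1 : χ ((P ^ j)⁻¹ * v) = (-1 : ℤˣ) ^ j * χ v := by
      rw [map_mul, map_inv, map_pow, hP, ← inv_pow]
      rfl
    rw [e1]
  have h1 := hW u
  rw [key, key] at h1
  linarith

end Pool.Agent.FermT
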