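import Pool.Agent.FermT.Defs

/-!
# FT8: the exotic relations of level `15` and `12`

`{5, 6, 8, 11}` is a Hodge multiset modulo `15` and `{3, 4, 7, 10}` modulo `12` (`decide` for
`IsHodge`, or for `bv` of the element of `A 15`; `isHodge_iff_bv` in `FermD/Conv.lean`, `toA_cons`,
`toA_singleton`). Transport to level `m` with `Lf m 15` (`Lf_e`: `Lf m n (e x) = e (mulD m n x)`,
`mulD m n x = m / n * x.val`), `bv_Lf_eq_zero` (`FermD/LiftA.lean`).
-/

set_option autoImplicit false

namespace Pool.Agent.FermT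

open Finset Pool.Stick Pool.Agent.FermD

private theorem Exo_hodge15 : IsHodge ({5, 6, 8, 11} : Multiset (ZMod 15)) := by
  refine ⟨by decide, 2, rfl, by decide⟩

private theorem Exo_hodge12 : IsHodge ({3, 4, 7, 10} : Multiset (ZMod 12)) := by
  refine ⟨by decide, 2, rfl, by decide⟩

private theorem Exo_lift {m n : ℕ} [NeZero m] [NeZero n] (h : n ∣ m) {a b c d : ZMod n}
    (hH : IsHodge ({a, b, c, d} : Multiset (ZMod n))) :
    bv (e (mulD m n a) + e (mulD m n b) + e (mulD m n c) + e (mulD m n d)) = 0 := by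
  have h1 := (bv_Lf_eq_zero h).2 (isHodge_iff_bv.1 hH).2.2
  have h2 : Lf m n (toA ({a, b, c, d} : Multiset (ZMod n))) =
      e (mulD m n a) + e (mulD m n b) + e (mulD m n c) + e (mulD m n d) := by
    simp only [Multiset.insert_eq_cons, toA_cons, toA_singleton, map_add, Lf_e]
    abel
  rw [← h2]
  exact h1

theorem exo15 {m : ℕ} [NeZero m] (h : 15 ∣ m) :
    bv (e ((m / 15 * 5 : ℕ) : ZMod m) + e ((m / 15 * 6 : ℕ) : ZMod m) +
      e ((m / 15 * 8 : ℕ) : ZMod m) + e ((m / 15 * 11 : ℕ) : ZMod m)) = 0 := by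
  have h1 := Exo_lift h Exo_hodge15
  have a1 : (5 : ZMod 15).val = 5 := by decide
  have a2 : (6 : ZMod 15).val = 6 := by decide
  have a3 : (8 : ZMod 15).val = 8 := by decide
  have a4 : (11 : ZMod 15).val = 11 := by decide
  unfold mulD at h1
  rw [a1, a2, a3, a4] at h1
  exact h1

theorem exo12 {m : ℕ} [NeZero m] (h : 12 ∣ m) :
    bv (e ((m / 12 * 3 : ℕ) : ZMod m) + e ((m / 12 * 4 : ℕ) : ZMod m) +
      e ((m / 12 * 7 : ℕ) : ZMod m) + e ((m / 12 * 10 : ℕ) : ZMod m)) = 0 := by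
  have h1 := Exo_lift h Exo_hodge12
  have a1 : (3 : ZMod 12).val = 3 := by decide
  have a2 : (4 : ZMod 12).val = 4 := by decide
  have a3 : (7 : ZMod 12).val = 7 := by decide
  have a4 : (10 : ZMod 12).val = 10 := by decide
  unfold mulD at h1
  rw [a1, a2, a3, a4] at h1
  exact h1

end Pool.Agent.FermT
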