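import Mathlib

/-!
# FT5: primitive roots modulo powers of `3` and `5`

`ZMod.orderOf_one_add_mul_prime` (Mathlib, RingTheory.ZMod.UnitsCyclic): the order of `1 + p * a`
modulo `p ^ (n + 1)` is `p ^ n` if `p` is odd and does not divide `a`. With `5 ^ 2 = 1 + 3 * 8`,
`3 ^ 4 = 1 + 5 * 16`, `2 ^ 2 = 1 + 3 * 1` and the orders `2`, `4`, `2` modulo `3`, `5`, `3` the
orders of `5`, `3`, `2` modulo `3 ^ (n + 1)`, `5 ^ (n + 1)`, `3 ^ (n + 1)` are the numbers of units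
`2 * 3 ^ n`, `4 * 5 ^ n`, `2 * 3 ^ n`, so the powers are all units. (Or by induction on the
exponent.)
-/

set_option autoImplicit false

namespace Pool.Agent.FermT

private theorem Prim_dvd {p g c m : ℕ} (hg : g ^ (p - 1) = 1 + p * c)
    (h0 : ∀ r < p - 1, g ^ r ≡ 1 [MOD p] → r = 0) (hp : 0 < p - 1) (hm : g ^ m ≡ 1 [MOD p]) :
    p - 1 ∣ m := by
  have h1 : g ^ m = (g ^ (p - 1)) ^ (m / (p - 1)) * g ^ (m % (p - 1)) := by
    rw [← pow_mul, ← pow_add, Nat.div_add_mod]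
  have h2 : g ^ (p - 1) ≡ 1 [MOD p] := by
    rw [hg]
    show (1 + p * c) % p = 1 % p
    rw [Nat.add_mul_mod_self_left]
  have h3 : g ^ (m % (p - 1)) ≡ 1 [MOD p] := by
    have h4 := (h2.pow (m / (p - 1))).mul_right (g ^ (m % (p - 1)))
    rw [← h1, one_pow, one_mul] at h4
    exact h4.symm.trans hm
  exact Nat.dvd_of_mod_eq_zero (h0 _ (Nat.mod_lt _ hp) h3)

private theorem Prim_aux {p : ℕ} [Fact p.Prime] (hp2 : p ≠ 2) {g c : ℕ}
    (hg : g ^ (p - 1) = 1 + p * c) (hc : ¬ p ∣ c)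
    (h0 : ∀ r < p - 1, g ^ r ≡ 1 [MOD p] → r = 0) (a n : ℕ) (hn : n.Coprime p) :
    ∃ k : ℕ, g ^ k ≡ n [MOD p ^ a] := by
  have hp : p.Prime := Fact.out
  have hp1 : 0 < p - 1 := by
    have := hp.two_le
    omega
  cases a with
  | zero => exact ⟨0, by rw [pow_zero]; exact Nat.modEq_one⟩
  | succ b =>
    have hgp : g.Coprime p := by
      have h1 : (g ^ (p - 1)).Coprime p := by
        rw [hg, Nat.coprime_add_mul_left_left]
        exact Nat.coprime_one_left p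
      exact (Nat.coprime_pow_left_iff hp1 g p).1 h1
    have hne : NeZero (p ^ (b + 1)) := ⟨pow_ne_zero _ hp.ne_zero⟩
    obtain ⟨u, hu⟩ : ∃ u : (ZMod (p ^ (b + 1)))ˣ, (u : ZMod (p ^ (b + 1))) = g :=
      ⟨ZMod.unitOfCoprime g (Nat.Coprime.pow_right (b + 1) hgp), ZMod.coe_unitOfCoprime _ _⟩
    obtain ⟨v, hv⟩ : ∃ v : (ZMod (p ^ (b + 1)))ˣ, (v : ZMod (p ^ (b + 1))) = n :=
      ⟨ZMod.unitOfCoprime n (Nat.Coprime.pow_right (b + 1) hn), ZMod.coe_unitOfCoprime _ _⟩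
    have h1 : p - 1 ∣ orderOf u := by
      refine Prim_dvd hg h0 hp1 ?_
      have h2 : ((g ^ orderOf u : ℕ) : ZMod (p ^ (b + 1))) = ((1 : ℕ) : ZMod (p ^ (b + 1))) := by
        rw [Nat.cast_pow, ← hu, ← Units.val_pow_eq_pow_val, pow_orderOf_eq_one, Units.val_one,
          Nat.cast_one]
      have h3 := (ZMod.natCast_eq_natCast_iff _ _ _).1 h2
      exact h3.of_dvd (dvd_pow_self p (Nat.succ_ne_zero b))
    have h2 : orderOf (u ^ (p - 1)) = p ^ b := by
      rw [← orderOf_units, Units.val_pow_eq_pow_val, hu, ← Nat.cast_pow, hg, Nat.cast_add,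
        Nat.cast_one, Nat.cast_mul]
      have h3 := ZMod.orderOf_one_add_mul_prime hp hp2 (c : ℤ)
        (fun h => hc (Int.natCast_dvd_natCast.1 h)) b
      rw [Int.cast_natCast] at h3
      exact h3
    rw [orderOf_pow, Nat.gcd_eq_right h1] at h2
    have h3 : orderOf u = (p - 1) * p ^ b := by
      rw [← h2, Nat.mul_div_cancel' h1]
    have h4 : Nat.card (ZMod (p ^ (b + 1)))ˣ = (p - 1) * p ^ b := by
      rw [Nat.card_eq_fintype_card, ZMod.card_units_eq_totient, Nat.totient_prime_pow_succ hp,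
        mul_comm]
    have h5 : Subgroup.zpowers u = ⊤ := by
      apply Subgroup.eq_top_of_card_eq
      rw [Nat.card_zpowers, h3, h4]
    have h6 : v ∈ Subgroup.zpowers u := by
      rw [h5]
      exact Subgroup.mem_top v
    obtain ⟨k, hk⟩ := (mem_powers_iff_mem_zpowers.2 h6)
    have hk' : u ^ k = v := hk
    refine ⟨k, (ZMod.natCast_eq_natCast_iff _ _ _).1 ?_⟩
    rw [Nat.cast_pow, ← hu, ← hv, ← Units.val_pow_eq_pow_val, hk']

theorem prim35 (a n : ℕ) (hn : n.Coprime 3) : ∃ k : ℕ, 5 ^ k ≡ n [MOD 3 ^ a] := by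
  have h : Fact (Nat.Prime 3) := ⟨Nat.prime_three⟩
  exact Prim_aux (p := 3) (g := 5) (c := 8) (by norm_num) (by norm_num) (by norm_num)
    (by decide) a n hn

theorem prim53 (b n : ℕ) (hn : n.Coprime 5) : ∃ k : ℕ, 3 ^ k ≡ n [MOD 5 ^ b] := by
  have h : Fact (Nat.Prime 5) := ⟨Nat.prime_five⟩
  exact Prim_aux (p := 5) (g := 3) (c := 16) (by norm_num) (by norm_num) (by norm_num)
    (by decide) b n hn

theorem prim32 (a n : ℕ) (hn : n.Coprime 3) : ∃ k : ℕ, 2 ^ k ≡ n [MOD 3 ^ a] := by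
  have h : Fact (Nat.Prime 3) := ⟨Nat.prime_three⟩
  exact Prim_aux (p := 3) (g := 2) (c := 1) (by norm_num) (by norm_num) (by norm_num)
    (by decide) a n hn

end Pool.Agent.FermT
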