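import Pool.Agent.FermT.Mixed
import Pool.Agent.FermT.Prim
import Pool.Agent.FermT.Exo

/-!
# FT9: generators

Let `R = UU m ⊔ bv.ker` and `f x` the class of `e x` in `A m ⧸ R`: an odd distribution by
`oddDist_mk` (`FermD/Step.lean`; `RelE m ≤ bv.ker ≤ R` by `RelE_bv`), zero on the units. It is
sufficient to show that every `f x` is a multiple of `f (m / 3)` (resp. `f (m / 4)`); then `e x` is in
`R ⊔ zmultiples`, and every `v` is a combination of the `e x`.

* `gen35`: `m = 3 ^ a * 5 ^ b`. If `3 ^ a` and `5 ^ b` do not divide `x.val`: `f x = 0` (`mixed`). If both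
  divide it, `x = 0`, `f 0 = 0`. If only `5 ^ b` divides it: `f x = f (m / 3)` (`level`, `prim35`); if only
  `3 ^ a`: `f x = f (m / 5)` (`level` with the two primes exchanged, `prim53`). By `exo15`:
  `f (5 m / 15) + f (6 m / 15) + f (8 m / 15) + f (11 m / 15) = 0`; the last two are `0` by `mixed`,
  `5 m / 15 = m / 3`, and `f (6 m / 15) = f (m / 5)` by `level`. So `f (m / 5) = - f (m / 3)`.
* `gen43`: `m = 4 * 3 ^ b = 2 ^ 2 * 3 ^ b`. If `4` and `3 ^ b` do not divide `x.val`: `f x = 0`. If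
  `4 ∣ x.val` and `3 ^ b` does not: `f x = f (m / 3)` (`level` with `l₁ = 3`, `l₂ = 2`, `prim32`). If
  `3 ^ b ∣ x.val`: `x` is `0`, `m / 4`, `m / 2`, `3 m / 4 = - m / 4` with the values `0`, `f (m / 4)`, `0`
  (`e (m / 2) ∈ RelE m`), `- f (m / 4)`. By `exo12`: `f (m / 4) + f (m / 3) + f (7 m / 12) + f (10 m / 12)
  = 0`, the last two are `0` by `mixed`.
-/

set_option autoImplicit false

namespace Pool.Agent.FermT

open Finset Pool.Stick Pool.Agent.FermD

variable {m : ℕ} [NeZero m]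

private theorem gen_of (X : ZMod m)
    (h : ∀ x : ZMod m, ∃ n : ℤ, (QuotientAddGroup.mk (e x) :
      A m ⧸ (UU m ⊔ (bv (m := m)).ker)) = n • QuotientAddGroup.mk (e X)) (v : A m) :
    v ∈ UU m ⊔ AddSubgroup.zmultiples (e X) ⊔ (bv (m := m)).ker := by
  set S := UU m ⊔ AddSubgroup.zmultiples (e X) ⊔ (bv (m := m)).ker with hS
  have hRS : UU m ⊔ (bv (m := m)).ker ≤ S :=
    sup_le (le_sup_left.trans le_sup_left) le_sup_right
  have hX : e X ∈ S :=
    AddSubgroup.mem_sup_left (AddSubgroup.mem_sup_right (AddSubgroup.mem_zmultiples _))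
  have he : ∀ x : ZMod m, e x ∈ S := by
    intro x
    obtain ⟨n, hn⟩ := h x
    rw [← QuotientAddGroup.mk_zsmul, QuotientAddGroup.eq] at hn
    have h1 := hRS hn
    have h2 := sub_mem (AddSubgroup.zsmul_mem S hX n) h1
    have h3 : n • e X - (-e x + n • e X) = e x := by abel
    rwa [h3] at h2
  have h1 : v = ∑ x : ZMod m, v x • e x := by
    conv_lhs => rw [← Finsupp.sum_single v]
    rw [Finsupp.sum_fintype]
    · refine sum_congr rfl fun x _ => ?_
      rw [e, Finsupp.smul_single, smul_eq_mul, mul_one]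
    · intro i
      exact Finsupp.single_zero i
  rw [h1]
  exact AddSubgroup.sum_mem _ fun x _ => AddSubgroup.zsmul_mem _ (he x) _

private theorem gen_odd : OddDist (fun x : ZMod m =>
    (QuotientAddGroup.mk (e x) : A m ⧸ (UU m ⊔ (bv (m := m)).ker))) :=
  oddDist_mk (fun _ hv => AddSubgroup.mem_sup_right (RelE_bv hv))

omit [NeZero m] in
private theorem gen_unit (u : (ZMod m)ˣ) :
    (QuotientAddGroup.mk (e (u : ZMod m)) : A m ⧸ (UU m ⊔ (bv (m := m)).ker)) = 0 := by
  rw [QuotientAddGroup.eq_zero_iff]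
  exact AddSubgroup.mem_sup_left (AddSubgroup.subset_closure ⟨u, rfl⟩)

omit [NeZero m] in
private theorem gen_ker {v : A m} (hv : bv v = 0) :
    (QuotientAddGroup.mk v : A m ⧸ (UU m ⊔ (bv (m := m)).ker)) = 0 := by
  rw [QuotientAddGroup.eq_zero_iff]
  exact AddSubgroup.mem_sup_right hv

omit [NeZero m] in
private theorem gen_ndvd {l k c d : ℕ} (hl : 0 < l) (hc : ¬ l ∣ c) (h : d = l ^ k * c) :
    ¬ l ^ (k + 1) ∣ d := by
  intro h1
  rw [h, pow_succ] at h1
  exact hc (Nat.dvd_of_mul_dvd_mul_left (pow_pos hl k) h1)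

theorem gen35 {a b : ℕ} (ha : 0 < a) (hb : 0 < b) (hm : m = 3 ^ a * 5 ^ b) (v : A m) :
    v ∈ UU m ⊔ AddSubgroup.zmultiples (e ((m / 3 : ℕ) : ZMod m)) ⊔ (bv (m := m)).ker := by
  have hm' : m = 5 ^ b * 3 ^ a := by rw [hm, mul_comm]
  have L3 := level (m := m) Nat.prime_three Nat.prime_five (by norm_num) (by norm_num) ha hb hm
    (prim35 a) gen_odd gen_unit
  have L5 := level (m := m) Nat.prime_five Nat.prime_three (by norm_num) (by norm_num) hb ha hm'
    (prim53 b) gen_odd gen_unit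
  have M := mixed (m := m) Nat.prime_three Nat.prime_five (by norm_num) hm gen_odd gen_unit
  obtain ⟨a', rfl⟩ := Nat.exists_eq_succ_of_ne_zero ha.ne'
  obtain ⟨b', rfl⟩ := Nat.exists_eq_succ_of_ne_zero hb.ne'
  simp only [Nat.succ_eq_add_one] at *
  set N := 3 ^ a' * 5 ^ b' with hN
  have hN0 : 0 < N := by positivity
  have hmN : m = 15 * N := by rw [hm, hN, pow_succ, pow_succ]; ring
  have hval : ∀ c < 15, ((m / 15 * c : ℕ) : ZMod m).val = N * c := by
    intro c hc
    have h1 : m / 15 * c = N * c := by rw [hmN, Nat.mul_div_cancel_left _ (by norm_num)]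
    rw [h1, ZMod.val_natCast_of_lt]
    rw [hmN]
    nlinarith
  have h6 := L5 ((m / 15 * 6 : ℕ) : ZMod m)
    (by
      rw [hval 6 (by norm_num)]
      exact gen_ndvd (c := 3 ^ a' * 6) (by norm_num)
        (fun h => by
          rcases (Nat.Prime.dvd_mul Nat.prime_five).1 h with h | h
          · have := Nat.prime_five.dvd_of_dvd_pow h
            omega
          · omega) (by rw [hN]; ring))
    (by
      rw [hval 6 (by norm_num)]
      exact ⟨5 ^ b' * 2, by rw [hN, pow_succ]; ring⟩)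
  have h8 : ∀ c, c < 15 → ¬ 3 ∣ c → ¬ 5 ∣ c →
      (QuotientAddGroup.mk (e ((m / 15 * c : ℕ) : ZMod m)) :
        A m ⧸ (UU m ⊔ (bv (m := m)).ker)) = 0 := by
    intro c hc hc3 hc5
    refine M _ ?_ ?_
    · rw [hval c hc]
      refine gen_ndvd (c := 5 ^ b' * c) (by norm_num) (fun h => ?_) (by rw [hN]; ring)
      rcases (Nat.Prime.dvd_mul Nat.prime_three).1 h with h | h
      · have := Nat.prime_three.dvd_of_dvd_pow h
        omega
      · exact hc3 h
    · rw [hval c hc]
      refine gen_ndvd (c := 3 ^ a' * c) (by norm_num) (fun h => ?_) (by rw [hN]; ring)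
      rcases (Nat.Prime.dvd_mul Nat.prime_five).1 h with h | h
      · have := Nat.prime_five.dvd_of_dvd_pow h
        omega
      · exact hc5 h
  have hexo := gen_ker (exo15 (m := m) ⟨N, hmN⟩)
  rw [QuotientAddGroup.mk_add, QuotientAddGroup.mk_add, QuotientAddGroup.mk_add,
    h8 8 (by norm_num) (by norm_num) (by norm_num),
    h8 11 (by norm_num) (by norm_num) (by norm_num), add_zero, add_zero] at hexo
  have h5 : m / 15 * 5 = m / 3 := by omega
  rw [h5] at hexo
  rw [h6] at hexo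
  refine gen_of _ (fun x => ?_) v
  by_cases hx3 : 3 ^ (a' + 1) ∣ x.val
  · by_cases hx5 : 5 ^ (b' + 1) ∣ x.val
    · have h1 : m ∣ x.val := (dvd_of_eq hm).trans (Nat.Coprime.mul_dvd_of_dvd_of_dvd
          (Nat.Coprime.pow _ _ (by norm_num)) hx3 hx5)
      have h2 : x = 0 := by
        have := Nat.eq_zero_of_dvd_of_lt h1 (ZMod.val_lt x)
        exact (ZMod.val_eq_zero x).1 this
      exact ⟨0, by rw [zero_zsmul, h2]; exact (gen_odd (m := m)).zero⟩
    · refine ⟨-1, ?_⟩
      have h1 := L5 x hx5 hx3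
      rw [h1, neg_zsmul, one_zsmul]
      exact (neg_eq_of_add_eq_zero_right hexo).symm
  · by_cases hx5 : 5 ^ (b' + 1) ∣ x.val
    · exact ⟨1, by rw [one_zsmul]; exact L3 x hx3 hx5⟩
    · exact ⟨0, by rw [zero_zsmul]; exact M x hx3 hx5⟩

theorem gen43 {b : ℕ} (hb : 0 < b) (hm : m = 4 * 3 ^ b) (v : A m) :
    v ∈ UU m ⊔ AddSubgroup.zmultiples (e ((m / 4 : ℕ) : ZMod m)) ⊔ (bv (m := m)).ker := by
  have hm' : m = 3 ^ b * 2 ^ 2 := by rw [hm]; ring
  have L3 := level (m := m) Nat.prime_three Nat.prime_two (by norm_num) (by norm_num) hb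
    (by norm_num) hm' (prim32 b) gen_odd gen_unit
  have M := mixed (m := m) Nat.prime_three Nat.prime_two (by norm_num) hm' gen_odd gen_unit
  obtain ⟨b', rfl⟩ := Nat.exists_eq_succ_of_ne_zero hb.ne'
  simp only [Nat.succ_eq_add_one] at *
  set N := 3 ^ b' with hN
  have hN0 : 0 < N := by positivity
  have hmN : m = 12 * N := by rw [hm, hN, pow_succ]; ring
  have hNodd : N % 2 = 1 := by
    rw [hN, ← Nat.odd_iff]
    exact Odd.pow (by decide)
  have hval : ∀ c < 12, ((m / 12 * c : ℕ) : ZMod m).val = N * c := by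
    intro c hc
    have h1 : m / 12 * c = N * c := by rw [hmN, Nat.mul_div_cancel_left _ (by norm_num)]
    rw [h1, ZMod.val_natCast_of_lt]
    rw [hmN]
    nlinarith
  have h8 : ∀ c, c < 12 → ¬ 3 ∣ c → ¬ 4 ∣ c →
      (QuotientAddGroup.mk (e ((m / 12 * c : ℕ) : ZMod m)) :
        A m ⧸ (UU m ⊔ (bv (m := m)).ker)) = 0 := by
    intro c hc hc3 hc4
    refine M _ ?_ ?_
    · rw [hval c hc]
      exact gen_ndvd (c := c) (by norm_num) hc3 (by rw [hN])
    · rw [hval c hc]
      intro h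
      have h1 : Nat.Coprime (2 ^ 2) N :=
        Nat.Coprime.pow_left 2 ((Nat.coprime_primes Nat.prime_two Nat.prime_three).2
          (by norm_num) |>.pow_right b')
      exact hc4 (h1.dvd_of_dvd_mul_left h)
  have hexo := gen_ker (exo12 (m := m) ⟨N, hmN⟩)
  rw [QuotientAddGroup.mk_add, QuotientAddGroup.mk_add, QuotientAddGroup.mk_add,
    h8 7 (by norm_num) (by norm_num) (by norm_num),
    h8 10 (by norm_num) (by norm_num) (by norm_num), add_zero, add_zero] at hexo
  have h3 : m / 12 * 3 = m / 4 := by omega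
  have h4 : m / 12 * 4 = m / 3 := by omega
  rw [h3, h4] at hexo
  refine gen_of _ (fun x => ?_) v
  by_cases hx3 : 3 ^ (b' + 1) ∣ x.val
  · obtain ⟨d, hd⟩ := hx3
    have hlt := ZMod.val_lt x
    have hd4 : d < 4 := by
      by_contra hcon
      have h5 : 4 * 3 ^ (b' + 1) ≤ x.val := by
        rw [hd, mul_comm]
        exact Nat.mul_le_mul_left _ (by omega)
      omega
    have hxd : x = ((m / 4 * d : ℕ) : ZMod m) := by
      have h5 : m / 4 = 3 ^ (b' + 1) := by rw [hm]; exact Nat.mul_div_cancel_left _ (by norm_num)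
      rw [h5, ← hd, ZMod.natCast_zmod_val]
    interval_cases d
    · refine ⟨0, ?_⟩
      rw [zero_zsmul, hxd, mul_zero, Nat.cast_zero]
      exact (gen_odd (m := m)).zero
    · refine ⟨1, ?_⟩
      rw [one_zsmul, hxd, mul_one]
    · refine ⟨0, ?_⟩
      have h5 : m / 4 * 2 = m / 2 := by omega
      rw [zero_zsmul, hxd, h5]
      exact gen_ker (RelE_bv (AddSubgroup.subset_closure
        (Or.inr (Or.inr ⟨⟨6 * N, by omega⟩, rfl⟩))))
    · refine ⟨-1, ?_⟩
      have h5 : ((m / 4 * 3 : ℕ) : ZMod m) = -((m / 4 : ℕ) : ZMod m) := by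
        rw [eq_neg_iff_add_eq_zero, ← Nat.cast_add, ZMod.natCast_eq_zero_iff]
        exact ⟨1, by omega⟩
      rw [neg_zsmul, one_zsmul, hxd, h5]
      exact (gen_odd (m := m)).odd _
  · by_cases hx4 : 2 ^ 2 ∣ x.val
    · refine ⟨-1, ?_⟩
      have h1 := L3 x hx3 hx4
      rw [h1, neg_zsmul, one_zsmul]
      exact (neg_eq_of_add_eq_zero_right hexo).symm
    · exact ⟨0, by rw [zero_zsmul]; exact M x hx3 hx4⟩

end Pool.Agent.FermT
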