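import Pool.Agent.FermT.Defs

/-!
# FT3: nonvanishing and its consequences

* `nonvan`: copy the proof of `Pool.Stick.LFunction_zero_ne_zero_gen` (`Stick/Gen1.lean`) with the
  following change. For a prime `l ∣ m` which does not divide the conductor, `conductor ∣ l ^ j + 1`, so
  `l ^ j = -1` modulo the conductor. If `χ' (l) = 1` for the primitive character `χ'` then
  `1 = χ' (l) ^ j = χ' (-1) = -1`, a contradiction; so the factor `1 - χ' (l) * l ^ (-0)` is not zero.
* `orb_of_beta`: this is contained in the proof of `Pool.Stick.mem_relL` (`Stick/Gen2.lean`): apply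
  `even_of_sum_eq_zero_inv` to `W u = orb P f g u`.
* `mem_of_orb`: `units_mem_rel` and `Rel_le_RelA` for any prime `l ∣ m`.
* `even_of_orb`: `even_cnt_relA` and `cnt (∑ u, g u • e u) = ∑ u, g u`.
-/

set_option autoImplicit false

namespace Pool.Agent.FermT

open Finset Pool.Stick Pool.Agent.FermD DirichletCharacter

variable {m : ℕ} [NeZero m]

theorem nonvan (hm : ∀ l : ℕ, l.Prime → l ∣ m → ∃ j k : ℕ, m ∣ l ^ k * (l ^ j + 1))
    {χ : DirichletCharacter ℂ m} (hodd : χ.Odd) : LFunction χ 0 ≠ 0 := by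
  have hc0 : χ.conductor ≠ 0 := conductor_ne_zero χ
  have : NeZero χ.conductor := ⟨hc0⟩
  have hdvd : χ.conductor ∣ m := conductor_dvd_level χ
  have hch : χ = changeLevel hdvd χ.primitiveCharacter := (changeLevel_primitiveCharacter χ).symm
  have hodd' : χ.primitiveCharacter.Odd := by
    have h := hodd
    unfold DirichletCharacter.Odd at h ⊢
    have h2 := changeLevel_eq_cast_of_dvd' χ.primitiveCharacter hdvd (a := -1)
      (IsCoprime.neg_left isCoprime_one_left)
    rw [← hch] at h2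
    push_cast at h2
    rw [← h2, h]
  have hne := LFunction_zero_ne_zero_of_primitive (primitiveCharacter_isPrimitive χ) hodd'
  rw [hch, LFunction_changeLevel hdvd χ.primitiveCharacter (Or.inr zero_ne_one)]
  refine mul_ne_zero hne (Finset.prod_ne_zero_iff.2 fun l hl => ?_)
  have h2 := Nat.prime_of_mem_primeFactors hl
  have h3 := Nat.dvd_of_mem_primeFactors hl
  by_cases hlc : l ∣ χ.conductor
  · have h4 : χ.primitiveCharacter (l : ZMod χ.conductor) = 0 := by
      rw [MulChar.map_nonunit]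
      rw [ZMod.isUnit_iff_coprime]
      intro h5
      exact h2.one_lt.ne' (Nat.dvd_one.1 (h5 ▸ Nat.dvd_gcd dvd_rfl hlc))
    rw [h4, zero_mul, sub_zero]
    exact one_ne_zero
  · obtain ⟨j, k, hjk⟩ := hm l h2 h3
    have h4 : χ.conductor ∣ l ^ j + 1 := by
      have h5 : χ.conductor ∣ l ^ k * (l ^ j + 1) := hdvd.trans hjk
      have h6 : Nat.Coprime χ.conductor (l ^ k) :=
        (((Nat.Prime.coprime_iff_not_dvd h2).2 hlc).pow_left k).symm
      exact h6.dvd_of_dvd_mul_left h5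
    have h7 : (l : ZMod χ.conductor) ^ j = -1 := by
      have h8 := (ZMod.natCast_eq_zero_iff (l ^ j + 1) χ.conductor).2 h4
      push_cast at h8
      linear_combination h8
    have h9 := congrArg χ.primitiveCharacter h7
    rw [map_pow, hodd'] at h9
    rw [neg_zero, Complex.cpow_zero, mul_one]
    intro h10
    have h11 : χ.primitiveCharacter (l : ZMod χ.conductor) = 1 := by
      linear_combination -h10
    rw [h11, one_pow] at h9
    norm_num at h9

variable {p f : ℕ} {P : (ZMod m)ˣ}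

theorem orb_of_beta (hm1 : m ≠ 1)
    (hL : ∀ χ : DirichletCharacter ℂ m, χ.Odd → LFunction χ 0 ≠ 0) (hf : P ^ f = 1)
    (g : (ZMod m)ˣ → ℤ)
    (hb : ∀ t : (ZMod m)ˣ, beta P f t (∑ u : (ZMod m)ˣ, g u • e (u : ZMod m)) = 0)
    (u : (ZMod m)ˣ) : orb P f g (-u) = orb P f g u := by
  refine even_of_sum_eq_zero_inv (m := m) hm1 P (fun χ hχ _ => hL χ hχ) (orb P f g) ?_ ?_ u
  · intro u
    unfold orb
    have h1 := sum_range_succ (fun j => g ((P ^ j)⁻¹ * (P * u))) f
    have h2 := sum_range_succ' (fun j => g ((P ^ j)⁻¹ * (P * u))) f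
    rw [h1] at h2
    have h3 : ∀ j, (P ^ (j + 1))⁻¹ * (P * u) = (P ^ j)⁻¹ * u := by
      intro j
      rw [pow_succ, mul_inv_rev, mul_assoc, mul_comm P⁻¹, mul_assoc, mul_comm (P * u),
        inv_mul_cancel_left]
    simp only [h3, hf, pow_zero] at h2
    exact add_right_cancel h2
  · intro t
    have h1 := hb t
    rw [map_sum] at h1
    simp_rw [map_zsmul, beta_e, zsmul_eq_mul, mul_sum] at h1
    rw [← h1]
    unfold orb
    push_cast
    simp_rw [sum_mul]
    rw [sum_comm]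
    conv_rhs => rw [sum_comm]
    refine sum_congr rfl fun j _ => ?_
    refine Fintype.sum_equiv (Equiv.mulLeft (P ^ j)⁻¹) _ _ fun u => ?_
    rw [Equiv.coe_mulLeft]
    congr 2
    push_cast
    rw [mul_comm ((P : ZMod m) ^ j), mul_assoc, ← mul_assoc ((P : ZMod m) ^ j)]
    congr 1
    have h5 : (P : ZMod m) ^ j * (((P ^ j)⁻¹ : (ZMod m)ˣ) : ZMod m) = 1 := by
      rw [← Units.val_pow_eq_pow_val, Units.mul_inv]
    rw [← inv_pow, Units.val_pow_eq_pow_val] at h5
    rw [h5, one_mul]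

theorem mem_of_orb (hm1 : m ≠ 1) (hp : (p : ZMod m) = P) (hf : P ^ f = 1) (hf0 : f ≠ 0)
    (hneg : (-1 : (ZMod m)ˣ) ∉ Subgroup.zpowers P) (g : (ZMod m)ˣ → ℤ)
    (h : ∀ u, orb P f g (-u) = orb P f g u) :
    ∑ u : (ZMod m)ˣ, g u • e (u : ZMod m) ∈ RelA m p := by
  obtain ⟨l, hl, hlm⟩ := Nat.exists_prime_and_dvd hm1
  exact Rel_le_RelA hl hlm (units_mem_rel hp hf hf0 hneg g h hm1)

theorem even_of_orb (hm1 : m ≠ 1) (hp : (p : ZMod m) = P) (hf : P ^ f = 1) (hf0 : f ≠ 0)
    (hneg : (-1 : (ZMod m)ˣ) ∉ Subgroup.zpowers P) (g : (ZMod m)ˣ → ℤ)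
    (h : ∀ u, orb P f g (-u) = orb P f g u) : Even (∑ u, g u) := by
  have h1 := even_cnt_relA (mem_of_orb hm1 hp hf hf0 hneg g h)
  rw [map_sum] at h1
  have h2 : ∑ u : (ZMod m)ˣ, cnt (g u • e (u : ZMod m)) = ∑ u, g u := by
    refine sum_congr rfl fun u _ => ?_
    rw [map_zsmul, cnt_e, smul_eq_mul, mul_one]
  rwa [h2] at h1

end Pool.Agent.FermT
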