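import Pool.Agent.FermT.IterN

/-!
# FT7: twice the element of level `3` or `4`

Let `f` be an odd distribution.

* `two35`: `m = 3 ^ a * 5 ^ b`. `hf.dist 5` at `x = m / 3`: the `z` with `5 z = 5 x` are
  `x + i m / 5`, `0 ≤ i < 5` (`sum_fibre`), and `5 x = 2 m / 3 = - x`. So
  `f x + ∑_{0 < i < 5} f (x + i m / 5) = f (- x) = - f x`. With `N = m / 15`:
  `x + i m / 5 = N * (5 + 3 i)`, and `f (N * c) = ∑ f z` over the `z` with `z.val % 15 = c % 15`
  (`iterN'` with `d = 15`). The numbers `5 + 3 i` are `8, 11, 14, 17`, modulo `15` the residues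
  `2, 8, 11, 14` which are prime to `15` and `2` modulo `3`; so the sum is the sum over all units `u` with
  `u.val % 3 = 2`, and by `u ↦ - u` it is `- ∑ f u` over the `u` with `u.val % 3 = 1`.
* `two43`: `m = 4 * 3 ^ b`, `x = m / 4`, `N = m / 12`: `hf.dist 3` at `x`: `f x + f (x + m / 3) +
  f (x + 2 m / 3) = f (3 x) = f (- x) = - f x`, `x + i m / 3 = N * (3 + 4 i)`, the residues `7, 11` modulo
  `12` are those prime to `12` which are `3` modulo `4`.
-/

set_option autoImplicit false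

namespace Pool.Agent.FermT

open Finset Pool.Stick Pool.Agent.FermD

variable {m : ℕ} [NeZero m] {W : Type} [AddCommGroup W] {f : ZMod m → W}

private theorem Two_neg (hm1 : m ≠ 1) (hf : OddDist f) {q a b : ℕ}
    (h : ∀ v, v ≤ m → (v % q = a ↔ (m - v) % q = b)) :
    ∑ u ∈ univ.filter (fun u : (ZMod m)ˣ => (u : ZMod m).val % q = a), f (u : ZMod m) =
      - ∑ u ∈ univ.filter (fun u : (ZMod m)ˣ => (u : ZMod m).val % q = b), f (u : ZMod m) := by
  have hm : 1 < m := by
    have := NeZero.pos m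
    omega
  haveI : Fact (1 < m) := ⟨hm⟩
  have hv : ∀ u : (ZMod m)ˣ, ((-u : (ZMod m)ˣ) : ZMod m).val = m - (u : ZMod m).val := by
    intro u
    rw [Units.val_neg, ZMod.neg_val, if_neg u.ne_zero]
  have hle : ∀ u : (ZMod m)ˣ, (u : ZMod m).val ≤ m := fun u => (ZMod.val_lt _).le
  rw [← Finset.sum_neg_distrib]
  refine Finset.sum_nbij' (fun u => -u) (fun u => -u) ?_ ?_ ?_ ?_ ?_
  · intro u hu
    rw [mem_filter] at hu ⊢
    refine ⟨mem_univ _, ?_⟩
    rw [hv]
    exact (h _ (hle u)).1 hu.2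
  · intro u hu
    rw [mem_filter] at hu ⊢
    refine ⟨mem_univ _, ?_⟩
    rw [hv]
    refine (h _ (Nat.sub_le _ _)).2 ?_
    rw [Nat.sub_sub_self (hle u)]
    exact hu.2
  · intro u _
    exact neg_neg u
  · intro u _
    exact neg_neg u
  · intro u _
    rw [Units.val_neg, hf.odd, neg_neg]

omit [NeZero m] in
private theorem Two_units {d c : ℕ} [NeZero m] (hd : ∀ z : ZMod m, z.val % d = c → IsUnit z) :
    ∑ u ∈ univ.filter (fun u : (ZMod m)ˣ => (u : ZMod m).val % d = c), f (u : ZMod m) =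
      ∑ z ∈ univ.filter (fun z : ZMod m => z.val % d = c), f z := by
  refine Finset.sum_nbij (fun u => (u : ZMod m)) ?_ ?_ ?_ ?_
  · intro u hu
    rw [mem_filter] at hu ⊢
    exact ⟨mem_univ _, hu.2⟩
  · intro u _ v _ huv
    exact Units.ext huv
  · intro z hz
    rw [mem_coe, mem_filter] at hz
    obtain ⟨u, rfl⟩ := hd z hz.2
    exact ⟨u, by rw [mem_coe, mem_filter]; exact ⟨mem_univ _, hz.2⟩, rfl⟩
  · intro u _
    rfl

private theorem Two_unit (z : ZMod m) (h : Nat.Coprime z.val m) : IsUnit z := by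
  rw [← ZMod.natCast_zmod_val z]
  exact (ZMod.isUnit_iff_coprime _ _).2 h

private theorem Two_split (hf : OddDist f) {N d q c : ℕ} (hN : m = N * d) (t : Finset ℕ)
    (ht : ∀ y ∈ t, y < d) (hq : ∀ y ∈ t, ∀ v, v % d = y → v % q = c)
    (hunit : ∀ y ∈ t, ∀ z : ZMod m, z.val % d = y → IsUnit z)
    (hmap : ∀ u : (ZMod m)ˣ, (u : ZMod m).val % q = c → (u : ZMod m).val % d ∈ t) :
    ∑ u ∈ univ.filter (fun u : (ZMod m)ˣ => (u : ZMod m).val % q = c), f (u : ZMod m) =
      ∑ y ∈ t, f ((N * y : ℕ) : ZMod m) := by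
  rw [← Finset.sum_fiberwise_of_maps_to (g := fun u : (ZMod m)ˣ => (u : ZMod m).val % d)
    (t := t) (fun u hu => hmap u (mem_filter.1 hu).2)]
  refine sum_congr rfl fun y hy => ?_
  have h1 := iterN' hf hN y
  rw [Nat.mod_eq_of_lt (ht y hy)] at h1
  rw [← h1, ← Two_units (hunit y hy), filter_filter]
  refine sum_congr ?_ fun _ _ => rfl
  ext u
  simp only [mem_filter, mem_univ, true_and]
  exact ⟨fun h => h.2, fun h => ⟨hq y hy _ h, h⟩⟩

theorem two35 {a b : ℕ} (ha : 0 < a) (hb : 0 < b) (hm : m = 3 ^ a * 5 ^ b) (hf : OddDist f) :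
    f ((m / 3 : ℕ) : ZMod m) + f ((m / 3 : ℕ) : ZMod m) =
      ∑ u ∈ univ.filter (fun u : (ZMod m)ˣ => (u : ZMod m).val % 3 = 1), f (u : ZMod m) := by
  obtain ⟨N, hN⟩ : ∃ N, m = N * 15 := by
    refine ⟨3 ^ (a - 1) * 5 ^ (b - 1), ?_⟩
    rw [hm]
    obtain ⟨a', rfl⟩ := Nat.exists_eq_succ_of_ne_zero ha.ne'
    obtain ⟨b', rfl⟩ := Nat.exists_eq_succ_of_ne_zero hb.ne'
    simp only [Nat.succ_eq_add_one, Nat.add_sub_cancel, pow_succ]
    ring
  have hm0 : 0 < m := NeZero.pos m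
  have hN0 : 0 < N := by
    rcases Nat.eq_zero_or_pos N with h | h
    · subst h
      omega
    · exact h
  have h5m : 5 ∣ m := ⟨3 * N, by omega⟩
  have hcop : ∀ v : ℕ, v % 3 ≠ 0 → v % 5 ≠ 0 → Nat.Coprime v m := by
    intro v h3 h5
    rw [hm]
    refine Nat.Coprime.mul_right (Nat.Coprime.pow_right _ ?_) (Nat.Coprime.pow_right _ ?_)
    · exact ((Nat.Prime.coprime_iff_not_dvd Nat.prime_three).2 (by omega)).symm
    · exact ((Nat.Prime.coprime_iff_not_dvd Nat.prime_five).2 (by omega)).symm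
  have hneg := Two_neg (by omega) hf (q := 3) (a := 1) (b := 2) (fun v hv => by omega)
  have hsplit := Two_split hf hN ({2, 8, 11, 14} : Finset ℕ) (q := 3) (c := 2) (by decide)
    (by
      intro y hy v hv
      simp only [mem_insert, mem_singleton] at hy
      omega)
    (by
      intro y hy z hz
      simp only [mem_insert, mem_singleton] at hy
      exact Two_unit z (hcop _ (by omega) (by omega)))
    (by
      intro u hu
      have h1 := ZMod.val_coe_unit_coprime u
      have h2 : (u : ZMod m).val % 15 ≠ 5 := by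
        intro h
        have h3 : 5 ∣ (u : ZMod m).val := by omega
        exact absurd (Nat.dvd_gcd h3 h5m) (by rw [h1]; norm_num)
      simp only [mem_insert, mem_singleton]
      omega)
  have hx : ((m / 3 : ℕ) : ZMod m).val = 5 * N := by
    rw [ZMod.val_natCast, Nat.mod_eq_of_lt (by omega)]
    omega
  have hd := hf.dist 5 Nat.prime_five h5m ((m / 3 : ℕ) : ZMod m)
  have h35 : m = 5 * (3 * N) := by omega
  rw [sum_fibre h35 (by norm_num), hx] at hd
  have hmod : 5 * N % (3 * N) = 2 * N := by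
    rw [show 5 * N = 2 * N + 3 * N by ring, Nat.add_mod_right, Nat.mod_eq_of_lt (by omega)]
  have hneg5 : ((5 : ℕ) : ZMod m) * ((m / 3 : ℕ) : ZMod m) = -((m / 3 : ℕ) : ZMod m) := by
    rw [eq_neg_iff_add_eq_zero, ← Nat.cast_mul, ← Nat.cast_add, ZMod.natCast_eq_zero_iff]
    exact ⟨2, by omega⟩
  rw [hmod, hneg5, hf.odd] at hd
  simp only [sum_range_succ, sum_range_zero, zero_add] at hd
  rw [hneg, hsplit]
  simp only [sum_insert (show (2 : ℕ) ∉ ({8, 11, 14} : Finset ℕ) by decide),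
    sum_insert (show (8 : ℕ) ∉ ({11, 14} : Finset ℕ) by decide),
    sum_insert (show (11 : ℕ) ∉ ({14} : Finset ℕ) by decide), sum_singleton]
  have e0 : 3 * N * 0 + 2 * N = N * 2 := by ring
  have e1 : 3 * N * 1 + 2 * N = m / 3 := by omega
  have e2 : 3 * N * 2 + 2 * N = N * 8 := by ring
  have e3 : 3 * N * 3 + 2 * N = N * 11 := by ring
  have e4 : 3 * N * 4 + 2 * N = N * 14 := by ring
  rw [e0, e1, e2, e3, e4] at hd
  rw [← sub_eq_zero] at hd ⊢
  rw [← hd]
  abel

theorem two43 {b : ℕ} (hb : 0 < b) (hm : m = 4 * 3 ^ b) (hf : OddDist f) :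
    f ((m / 4 : ℕ) : ZMod m) + f ((m / 4 : ℕ) : ZMod m) =
      ∑ u ∈ univ.filter (fun u : (ZMod m)ˣ => (u : ZMod m).val % 4 = 1), f (u : ZMod m) := by
  obtain ⟨N, hN⟩ : ∃ N, m = N * 12 := by
    refine ⟨3 ^ (b - 1), ?_⟩
    rw [hm]
    obtain ⟨b', rfl⟩ := Nat.exists_eq_succ_of_ne_zero hb.ne'
    simp only [Nat.succ_eq_add_one, Nat.add_sub_cancel, pow_succ]
    ring
  have hm0 : 0 < m := NeZero.pos m
  have hN0 : 0 < N := by
    rcases Nat.eq_zero_or_pos N with h | h
    · subst h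
      omega
    · exact h
  have h3m : 3 ∣ m := ⟨4 * N, by omega⟩
  have hcop : ∀ v : ℕ, v % 2 ≠ 0 → v % 3 ≠ 0 → Nat.Coprime v m := by
    intro v h2 h3
    rw [hm, show (4 : ℕ) = 2 ^ 2 by norm_num]
    refine Nat.Coprime.mul_right (Nat.Coprime.pow_right _ ?_) (Nat.Coprime.pow_right _ ?_)
    · exact ((Nat.Prime.coprime_iff_not_dvd Nat.prime_two).2 (by omega)).symm
    · exact ((Nat.Prime.coprime_iff_not_dvd Nat.prime_three).2 (by omega)).symm
  have hneg := Two_neg (by omega) hf (q := 4) (a := 1) (b := 3) (fun v hv => by omega)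
  have hsplit := Two_split hf hN ({7, 11} : Finset ℕ) (q := 4) (c := 3) (by decide)
    (by
      intro y hy v hv
      simp only [mem_insert, mem_singleton] at hy
      omega)
    (by
      intro y hy z hz
      simp only [mem_insert, mem_singleton] at hy
      exact Two_unit z (hcop _ (by omega) (by omega)))
    (by
      intro u hu
      have h1 := ZMod.val_coe_unit_coprime u
      have h2 : (u : ZMod m).val % 12 ≠ 3 := by
        intro h
        have h3 : 3 ∣ (u : ZMod m).val := by omega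
        exact absurd (Nat.dvd_gcd h3 h3m) (by rw [h1]; norm_num)
      simp only [mem_insert, mem_singleton]
      omega)
  have hx : ((m / 4 : ℕ) : ZMod m).val = 3 * N := by
    rw [ZMod.val_natCast, Nat.mod_eq_of_lt (by omega)]
    omega
  have hd := hf.dist 3 Nat.prime_three h3m ((m / 4 : ℕ) : ZMod m)
  have h34 : m = 3 * (4 * N) := by omega
  rw [sum_fibre h34 (by norm_num), hx] at hd
  have hmod : 3 * N % (4 * N) = 3 * N := Nat.mod_eq_of_lt (by omega)
  have hneg3 : ((3 : ℕ) : ZMod m) * ((m / 4 : ℕ) : ZMod m) = -((m / 4 : ℕ) : ZMod m) := by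
    rw [eq_neg_iff_add_eq_zero, ← Nat.cast_mul, ← Nat.cast_add, ZMod.natCast_eq_zero_iff]
    exact ⟨1, by omega⟩
  rw [hmod, hneg3, hf.odd] at hd
  simp only [sum_range_succ, sum_range_zero, zero_add] at hd
  rw [hneg, hsplit]
  simp only [sum_insert (show (7 : ℕ) ∉ ({11} : Finset ℕ) by decide), sum_singleton]
  have e0 : 4 * N * 0 + 3 * N = m / 4 := by omega
  have e1 : 4 * N * 1 + 3 * N = N * 7 := by ring
  have e2 : 4 * N * 2 + 3 * N = N * 11 := by ring
  rw [e0, e1, e2] at hd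
  rw [← sub_eq_zero] at hd ⊢
  rw [← hd]
  abel

end Pool.Agent.FermT
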