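import Pool.Agent.FermT.Basic
import Pool.Agent.FermT.Comb
import Pool.Agent.FermT.Nonvan
import Pool.Agent.FermT.Two
import Pool.Agent.FermT.Gen
import Pool.Agent.FermT.Chi

/-!
# FT12: degree `4 * 3 ^ b`

As `main35`, with `X = e (m / 4)`, `gen43`, `two43`, `chi4`: `v = ∑ u, w u • e u + c • X + k`, `bv
k = 0`,
`k 0 = 0`, `g u = 2 * w u + (if χ u = 1 then c else 0)`, `orb g (-u) = orb g u`. (`nonvan`: for `l
= 2`
take `j` with `2 ^ j ≡ -1` modulo `3 ^ b` from `prim32`, for `l = 3`: `4 ∣ 3 ^ 1 + 1`.)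

`c` is even: let `E = ∑ w u * χ u`, `σ = ∑ w u` (same parity). `sg k = (m / 2) * cnt k`
(`sg_of_bv`) and
`cnt k = cnt v - σ - c` has the parity of `σ + c`, so `(m / 2) * cnt k = (m / 2) * (σ + c)` in
`ZMod m`
and `0 = sg v = ∑ w u * u + c * (m / 4) + (m / 2) * (σ + c)`. Apply `ZMod.castHom (4 ∣ m) (ZMod
4)`: `u`
becomes `χ u`, `m / 4 = 3 ^ b` becomes `(-1) ^ b`, `m / 2 = 2 * 3 ^ b` becomes `2`. So in `ZMod 4`:
`0 = E + c * (-1) ^ b + 2 * (σ + c) = E + c * (-1) ^ b + 2 * E + 2 * c`, i.e.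
`E = - c * (-1) ^ b` (as `3 = -1` and `(-1) ^ b + 2 = - (-1) ^ b` in `ZMod 4`; two cases for `b`).
If `χ P = 1`: `4 * E = - c * φ(m) = - c * 4 * 3 ^ (b-1)`, `E = - c * 3 ^ (b-1) = c * (-1) ^ b` in
`ZMod 4`, so `2 * c = 0` in `ZMod 4`: `c` is even. If `χ P = -1`: `comb_neg` and `even_of_orb`: `σ`
is
even, so `E` is even, so `c` is even.

Let `c = 2 d`, `g' u = w u + (if χ u = 1 then d else 0)`, `∑ u, g' u • e u ∈ RelA m p`
(`mem_of_orb`),
`k' = v - ∑ u, g' u • e u = d • (2 • X - ∑_{χ u = 1} e u) + k`: `bv k' = 0`, `k' 0 = 0`, and `cnt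
k'` is
even because `cnt v` is even and elements of `RelA` have an even `cnt` (`even_cnt_relA`).
-/

set_option autoImplicit false

namespace Pool.Agent.FermT

open Finset Pool.Stick Pool.Agent.FermD

private theorem Main43_nonvan {m b : ℕ} (hm : m = 4 * 3 ^ b) (l : ℕ) (hl : l.Prime)
    (hlm : l ∣ m) : ∃ j k : ℕ, m ∣ l ^ k * (l ^ j + 1) := by
  rw [hm] at hlm
  rcases (Nat.Prime.dvd_mul hl).1 hlm with h | h
  · have h2 : l = 2 := by
      have h3 : l ∣ 2 ^ 2 := h
      exact (Nat.prime_dvd_prime_iff_eq hl Nat.prime_two).1 (hl.dvd_of_dvd_pow h3)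
    subst h2
    have hpos : 1 ≤ 3 ^ b := Nat.one_le_pow _ _ (by norm_num)
    rcases Nat.eq_zero_or_pos b with hb | hb
    · subst hb
      exact ⟨0, 2, by rw [hm]; norm_num⟩
    · have hc : (3 ^ b - 1).Coprime 3 := by
        rw [Nat.Coprime, Nat.gcd_comm]
        refine (Nat.Prime.coprime_iff_not_dvd Nat.prime_three).2 fun h4 => ?_
        have h5 : 3 ∣ 3 ^ b := dvd_pow_self 3 hb.ne'
        omega
      obtain ⟨j, hj⟩ := prim32 b _ hc
      refine ⟨j, 2, ?_⟩
      have h6 : 3 ^ b ∣ 2 ^ j + 1 := by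
        have h7 := Nat.ModEq.add_right 1 hj
        rw [Nat.sub_add_cancel hpos] at h7
        exact (Nat.modEq_zero_iff_dvd).1 (h7.trans (Nat.modEq_zero_iff_dvd.2 dvd_rfl))
      rw [hm]
      exact mul_dvd_mul (by norm_num) h6
  · have h3 : l = 3 := (Nat.prime_dvd_prime_iff_eq hl Nat.prime_three).1 (hl.dvd_of_dvd_pow h)
    subst h3
    refine ⟨1, b, ?_⟩
    rw [hm]
    exact ⟨1, by ring⟩

private theorem Main43_card {m b : ℕ} [NeZero m] (hb0 : 0 < b) (hm : m = 4 * 3 ^ b) :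
    Fintype.card (ZMod m)ˣ = 4 * 3 ^ (b - 1) := by
  rw [ZMod.card_units_eq_totient, hm]
  have hc : Nat.Coprime 4 (3 ^ b) := Nat.Coprime.pow_right b (by norm_num)
  rw [Nat.totient_mul hc, Nat.totient_prime_pow Nat.prime_three hb0]
  have h4 : Nat.totient 4 = 2 := by decide
  rw [h4]
  omega

private theorem Main43_orb {m : ℕ} (P : (ZMod m)ˣ) (f : ℕ) (g : (ZMod m)ˣ → ℤ)
    (u : (ZMod m)ˣ) : orb P f (fun v => 2 * g v) u = 2 * orb P f g u := by
  unfold orb
  rw [mul_sum]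

theorem main43 {m b : ℕ} [NeZero m] (hb0 : 0 < b) (hm : m = 4 * 3 ^ b)
    {p f : ℕ} {P : (ZMod m)ˣ} (hp : (p : ZMod m) = P) (hf : P ^ f = 1) (hf0 : f ≠ 0)
    (hneg : (-1 : (ZMod m)ˣ) ∉ Subgroup.zpowers P) {v : A m} (hv0 : v 0 = 0)
    (hcnt : Even (cnt v)) (hs : sg v = 0) (hb : ∀ t : (ZMod m)ˣ, beta P f t v = 0) :
    ∃ k : A m, bv k = 0 ∧ k 0 = 0 ∧ Even (cnt k) ∧ v - k ∈ RelA m p := by
  classical
  have h3b : 1 ≤ 3 ^ b := Nat.one_le_pow _ _ (by norm_num)
  have hm1 : m ≠ 1 := by omega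
  have h4 : 4 ∣ m := ⟨3 ^ b, hm⟩
  have h2 : 2 ∣ m := ⟨2 * 3 ^ b, by omega⟩
  have hm4 : m / 4 = 3 ^ b := by omega
  have hm2 : m / 2 = 2 * 3 ^ b := by omega
  have : Fact (1 < m) := ⟨by omega⟩
  -- decomposition
  obtain ⟨s, hs', k, hk, hsum⟩ := AddSubgroup.mem_sup.1 (gen43 hb0 hm v)
  obtain ⟨U, hU, cx, hcx, hsum'⟩ := AddSubgroup.mem_sup.1 hs'
  obtain ⟨w, hw⟩ := exists_sum hU
  obtain ⟨c, hc⟩ := AddSubgroup.mem_zmultiples_iff.1 hcx
  rw [AddMonoidHom.mem_ker] at hk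
  set X : A m := e ((m / 4 : ℕ) : ZMod m) with hX
  have hv : v = U + c • X + k := by rw [hc, hsum', hsum]
  have hX0 : X 0 = 0 := by
    rw [hX]
    apply e_zero
    rw [Ne, ZMod.natCast_eq_zero_iff, hm4]
    intro h
    have := Nat.le_of_dvd (by omega) h
    omega
  have hE0 : ∀ g : (ZMod m)ˣ → ℤ, (∑ u : (ZMod m)ˣ, g u • (e (u : ZMod m) : A m)) 0 = 0 := by
    intro g
    rw [Finsupp.finsetSum_apply]
    refine sum_eq_zero fun u _ => ?_
    rw [Finsupp.smul_apply, e_zero u.ne_zero, smul_zero]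
  have hU0 : U 0 = 0 := by rw [hw]; exact hE0 w
  have hk0 : k 0 = 0 := by
    have h5 := hv0
    rw [hv, Finsupp.add_apply, Finsupp.add_apply, hU0, Finsupp.smul_apply, hX0] at h5
    simpa using h5
  -- the character
  obtain ⟨χ, hχn, hχ1, hχc⟩ := chi4 h4
  set S1 : A m := ∑ u : (ZMod m)ˣ, (if χ u = 1 then (1 : ℤ) else 0) • e (u : ZMod m) with hS1
  set D : A m := X + X - S1 with hD
  have hS10 : S1 0 = 0 := hE0 _
  have hD0 : D 0 = 0 := by
    rw [hD, Finsupp.sub_apply, Finsupp.add_apply, hX0, hS10]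
    norm_num
  have hDbv : bv D = 0 := by
    have h5 := two43 hb0 hm (oddDist_mk (R := (bv (m := m)).ker)
      (fun v hv => AddMonoidHom.mem_ker.2 (RelE_bv hv)))
    have h6 : QuotientAddGroup.mk' (bv (m := m)).ker D = 0 := by
      have h7 : QuotientAddGroup.mk' (bv (m := m)).ker X +
          QuotientAddGroup.mk' (bv (m := m)).ker X =
          ∑ u ∈ univ.filter (fun u : (ZMod m)ˣ => (u : ZMod m).val % 4 = 1),
            QuotientAddGroup.mk' (bv (m := m)).ker (e (u : ZMod m)) := h5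
      have h8 : QuotientAddGroup.mk' (bv (m := m)).ker S1 =
          ∑ u ∈ univ.filter (fun u : (ZMod m)ˣ => (u : ZMod m).val % 4 = 1),
            QuotientAddGroup.mk' (bv (m := m)).ker (e (u : ZMod m)) := by
        rw [hS1, map_sum, sum_filter]
        refine sum_congr rfl fun u _ => ?_
        by_cases h : χ u = 1
        · rw [if_pos h, if_pos ((hχ1 u).1 h), one_smul]
        · rw [if_neg h, if_neg (fun h' => h ((hχ1 u).2 h')), zero_smul, map_zero]
      rw [hD, map_sub, map_add, h7, h8, sub_self]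
    rw [QuotientAddGroup.mk'_apply, QuotientAddGroup.eq_zero_iff, AddMonoidHom.mem_ker] at h6
    exact h6
  -- the orbit condition
  have hgsum : ∑ u : (ZMod m)ˣ, (2 * w u + if χ u = 1 then c else 0) • (e (u : ZMod m) : A m) =
      (2 : ℤ) • U + c • S1 := by
    rw [hw, hS1, smul_sum, smul_sum, ← sum_add_distrib]
    refine sum_congr rfl fun u _ => ?_
    rw [add_smul, mul_smul]
    congr 1
    split_ifs
    · rw [one_smul]
    · rw [zero_smul, smul_zero]
  have hgsum2 : ∑ u : (ZMod m)ˣ, (2 * w u + if χ u = 1 then c else 0) •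
      (e (u : ZMod m) : A m) = (2 : ℤ) • v - (c • D + (2 : ℤ) • k) := by
    rw [hgsum, hv, hD]
    simp only [smul_add, smul_sub, smul_smul]
    rw [show (2 : ℤ) * c = c + c by ring, add_smul]
    abel
  have hKbv : bv (c • D + (2 : ℤ) • k) = 0 := by
    rw [map_add, map_zsmul, map_zsmul, hDbv, hk, smul_zero, smul_zero, add_zero]
  have hK0 : (c • D + (2 : ℤ) • k) 0 = 0 := by
    rw [Finsupp.add_apply, Finsupp.smul_apply, Finsupp.smul_apply, hD0, hk0]
    simp
  have hW : ∀ u, orb P f (fun v => 2 * w v + if χ v = 1 then c else 0) (-u) =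
      orb P f (fun v => 2 * w v + if χ v = 1 then c else 0) u := by
    refine orb_of_beta hm1 (fun χ' hodd => nonvan (Main43_nonvan hm) hodd) hf _ ?_
    intro t
    rw [hgsum2, map_sub, map_zsmul, hb t, smul_zero, beta_of_bv hKbv hK0, sub_zero]
  -- parity
  set E : ℤ := ∑ u, w u * ((χ u : ℤˣ) : ℤ) with hE
  set σ : ℤ := ∑ u, w u with hσ
  have hcntU : ∀ g : (ZMod m)ˣ → ℤ,
      cnt (∑ u : (ZMod m)ˣ, g u • (e (u : ZMod m) : A m)) = ∑ u, g u := by
    intro g
    rw [map_sum]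
    refine sum_congr rfl fun u _ => ?_
    rw [map_zsmul, cnt_e, smul_eq_mul, mul_one]
  have hcv : cnt v = σ + c + cnt k := by
    rw [hv, map_add, map_add, hw, hcntU, map_zsmul, hX, cnt_e, smul_eq_mul, mul_one]
  have hEσ : (2 : ℤ) ∣ E - σ := by
    rw [hE, hσ, ← sum_sub_distrib]
    refine Finset.dvd_sum fun u _ => ?_
    rcases Int.units_eq_one_or (χ u) with h | h
    · rw [h]
      exact ⟨0, by simp⟩
    · rw [h]
      exact ⟨- w u, by simp; ring⟩
  have hmod : (4 : ℤ) ∣ E + c * 3 ^ b + 2 * 3 ^ b * cnt k := by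
    have h5 : sg v = ∑ u : (ZMod m)ˣ, (w u : ZMod m) * (u : ZMod m) +
        (c : ZMod m) * ((m / 4 : ℕ) : ZMod m) + ((m / 2 : ℕ) : ZMod m) * (cnt k : ZMod m) := by
      rw [hv, map_add, map_add, sg_of_bv h2 hk hk0, hw, map_sum, map_zsmul, hX, sg_e,
        zsmul_eq_mul]
      congr 2
      refine sum_congr rfl fun u _ => ?_
      rw [map_zsmul, sg_e, zsmul_eq_mul]
    have h6 := congrArg (ZMod.castHom h4 (ZMod 4)) h5
    rw [hs, map_zero, map_add, map_add, map_sum, map_mul, map_mul, map_natCast, map_natCast,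
      map_intCast, map_intCast, hm4, hm2] at h6
    have h7 : ∑ u : (ZMod m)ˣ, ZMod.castHom h4 (ZMod 4) ((w u : ZMod m) * (u : ZMod m)) =
        ((E : ℤ) : ZMod 4) := by
      rw [hE]
      push_cast
      refine sum_congr rfl fun u _ => ?_
      rw [map_mul, map_intCast, hχc]
    rw [h7] at h6
    have h8 : ((E + c * 3 ^ b + 2 * 3 ^ b * cnt k : ℤ) : ZMod 4) = 0 := by
      rw [h6]
      push_cast
      ring
    exact (ZMod.intCast_zmod_eq_zero_iff_dvd _ 4).1 h8
  have hodd : Odd ((3 : ℤ) ^ b) := Odd.pow (by decide)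
  have hceven : Even c := by
    rcases Int.units_eq_one_or (χ P) with hP | hP
    · have h5 := comb_pos hf0 χ hχn hP w c hW
      rw [Main43_card hb0 hm] at h5
      push_cast at h5
      have h6 : E = - c * 3 ^ (b - 1) := by
        have : 4 * E = 4 * (- c * 3 ^ (b - 1)) := by
          rw [hE, h5]
          ring
        linarith
      have h7 : (3 : ℤ) ^ b = 3 * 3 ^ (b - 1) := by
        obtain ⟨b', rfl⟩ : ∃ b', b = b' + 1 := ⟨b - 1, by omega⟩
        rw [Nat.add_sub_cancel, pow_succ]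
        ring
      obtain ⟨r, hr⟩ : Odd ((3 : ℤ) ^ (b - 1)) := Odd.pow (by decide)
      rw [h7, h6, hr] at hmod
      rw [h6, hr] at hEσ
      rw [hcv] at hcnt
      obtain ⟨q, hq⟩ := hmod
      obtain ⟨q1, hq1⟩ := hEσ
      obtain ⟨q2, hq2⟩ := hcnt
      have h8 : (2 * r + 1) * (c + 3 * cnt k) = 2 * q := by linarith
      exact ⟨-q2 + q - r * (c + 3 * cnt k) - cnt k - q1 - r * c, by
        linear_combination h8 - hq1 - hq2⟩
    · have h5 : Even σ := even_of_orb hm1 hp hf hf0 hneg w (comb_neg hf χ hP w c hW)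
      obtain ⟨r, hr⟩ := hodd
      rw [hr] at hmod
      obtain ⟨q, hq⟩ := hmod
      obtain ⟨q1, hq1⟩ := hEσ
      obtain ⟨q2, hq2⟩ := h5
      exact ⟨2 * q - q2 - q1 - r * c - (2 * r + 1) * cnt k, by
        linear_combination hq - hq1 - hq2⟩
  obtain ⟨d, hd⟩ := hceven
  have horb : ∀ u, orb P f (fun v => w v + if χ v = 1 then d else 0) (-u) =
      orb P f (fun v => w v + if χ v = 1 then d else 0) u := by
    intro u
    have h5 := hW u
    have h6 : (fun v => 2 * w v + if χ v = 1 then c else 0) =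
        fun v => 2 * (w v + if χ v = 1 then d else 0) := by
      funext v
      split_ifs
      · rw [hd]; ring
      · ring
    rw [h6, Main43_orb P f (fun v => w v + if χ v = 1 then d else 0),
      Main43_orb P f (fun v => w v + if χ v = 1 then d else 0)] at h5
    linarith
  have hmem := mem_of_orb hm1 hp hf hf0 hneg _ horb
  have hsum3 : ∑ u : (ZMod m)ˣ, (w u + if χ u = 1 then d else 0) • (e (u : ZMod m) : A m) =
      U + d • S1 := by
    rw [hw, hS1, smul_sum, ← sum_add_distrib]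
    refine sum_congr rfl fun u _ => ?_
    rw [add_smul]
    congr 1
    split_ifs
    · rw [one_smul]
    · rw [zero_smul, smul_zero]
  rw [hsum3] at hmem
  have hvk : v - (d • D + k) = U + d • S1 := by
    rw [hv, hD, hd]
    simp only [smul_add, smul_sub, add_smul]
    abel
  refine ⟨d • D + k, ?_, ?_, ?_, ?_⟩
  · rw [map_add, map_zsmul, hDbv, hk, smul_zero, add_zero]
  · rw [Finsupp.add_apply, Finsupp.smul_apply, hD0, hk0]
    simp
  · have h5 : cnt (d • D + k) = cnt v - cnt (U + d • S1) := by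
      rw [← hvk, ← map_sub]
      congr 1
      abel
    rw [h5]
    exact hcnt.sub (even_cnt_relA hmem)
  · rw [hvk]
    exact hmem

end Pool.Agent.FermT
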