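import Pool.Agent.FermT.Main35

/-!
# FT13: degree `2 * 3 ^ a * 5 ^ b`

Copy the proof of `Pool.Stick.mem_relL_twice` (`Stick/Gen3.lean`) with `main35` instead of `mem_relL`
(`n = 3 ^ a * 5 ^ b`): `v = JJ n w + c • half (2 * n) 2 + r`, `w 0 = 0`,
`r ∈ closure (relP (2 n) ∪ relD (2 n) 2)`, `beta P' f t w = 0` for all `t`.

New points. (1) `cnt w` is even: `sg r = 0` (`relP`: clear; `sg_relD`), `sg (JJ n w)` is twice something
(`jj n x` is `2 * x.val`), `half (2 n) 2 = e n`, so `0 = sg v` gives `c * n = even` in `ZMod (2 n)`, so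
`c` is even (`n` odd), and `cnt v = cnt w + c + cnt r` with `cnt r` even. (2) `-1 ∉ zpowers P'` for the
image `P'` of `P` in `(ZMod n)ˣ`: `(ZMod (2 n))ˣ → (ZMod n)ˣ` is injective (`unitsMap_inj` in
`Stick/Lattice6.lean`). (3) `main35` gives `k'` with `w - k' ∈ RelA n p`; `JJ n` maps `RelA n p` to
`RelA (2 n) p` (first part of the proof of `JJ_RelL`). (4) Put `k = JJ n k' + (c / 2) • 2 • e n`,
i.e. `k = v - JJ n (w - k') - r`: `bv (JJ n k') = 0` since `bt t (JJ n y) = bt t' y` (`unit_mul_jj`,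
`hh_jj`; `t'` the image of `t`), `bv (e n) = 0` (it is in `RelE`, `RelE_bv`), `cnt k` even, `k 0 = 0`.
-/

set_option autoImplicit false

namespace Pool.Agent.FermT

open Finset Pool.Stick Pool.Agent.FermD

private theorem twice_JJ_RelA {n : ℕ} [NeZero n] [NeZero (2 * n)] (hnodd : Odd n) {p : ℕ}
    {v : A n} (hv : v ∈ RelA n p) : JJ n v ∈ RelA (2 * n) p := by
  have h1 : RelA n p ≤ (RelA (2 * n) p).comap (JJ n) := by
    unfold RelA
    rw [AddSubgroup.closure_le]
    rintro v ((⟨x, hx, rfl⟩ | ⟨l, hl, ⟨M, hM⟩, hv⟩) | ⟨x, hx, rfl⟩)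
    · change JJ n _ ∈ RelA (2 * n) p
      rw [map_add, JJ_e, JJ_e, jj_neg]
      exact AddSubgroup.subset_closure (Or.inl (Or.inl ⟨_, jj_ne_zero hx, rfl⟩))
    · change JJ n _ ∈ RelA (2 * n) p
      have hl2 : l ≠ 2 := by
        rintro rfl
        rw [hM] at hnodd
        exact absurd hnodd (by simp)
      refine AddSubgroup.subset_closure (Or.inl (Or.inr ⟨l, hl, ?_, JJ_relD hl hl2 hM hv⟩))
      exact ⟨2 * M, by rw [hM]; ring⟩
    · change JJ n _ ∈ RelA (2 * n) p
      rw [map_sub, JJ_e, JJ_e, jj_mul]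
      exact AddSubgroup.subset_closure (Or.inr ⟨_, jj_ne_zero hx, rfl⟩)
  exact h1 hv

private theorem twice_hom_ext {m : ℕ} {Q : Type} [AddCommGroup Q] {F G : A m →+ Q}
    (h : ∀ x : ZMod m, F (e x) = G (e x)) (v : A m) : F v = G v := by
  have h1 : F = G := by
    refine Finsupp.addHom_ext fun x b => ?_
    have h2 : (Finsupp.single x b : A m) = b • e x := by
      rw [e, Finsupp.smul_single, smul_eq_mul, mul_one]
    rw [h2, map_zsmul, map_zsmul, h]
  rw [h1]

private theorem twice_cnt_JJ {n : ℕ} [NeZero n] [NeZero (2 * n)] (v : A n) :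
    cnt (JJ n v) = cnt v := by
  refine twice_hom_ext (F := (cnt (m := 2 * n)).comp (JJ n)) (G := cnt) (fun x => ?_) v
  rw [AddMonoidHom.comp_apply, JJ_e, cnt_e, cnt_e]

private theorem twice_JJ_zero {n : ℕ} [NeZero n] [NeZero (2 * n)] (v : A n) :
    (JJ n v) 0 = v 0 := by
  refine twice_hom_ext
    (F := (Finsupp.applyAddHom (0 : ZMod (2 * n)) : A (2 * n) →+ ℤ).comp (JJ n))
    (G := (Finsupp.applyAddHom (0 : ZMod n) : A n →+ ℤ)) (fun x => ?_) v
  rw [AddMonoidHom.comp_apply, JJ_e]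
  change (e (jj n x) : A (2 * n)) 0 = (e x : A n) 0
  by_cases hx : x = 0
  · subst hx
    rw [jj_zero]
    simp [e]
  · rw [e_zero hx, e_zero (jj_ne_zero hx)]

private theorem twice_bt_JJ {n : ℕ} [NeZero n] [NeZero (2 * n)] (t : (ZMod (2 * n))ˣ)
    (v : A n) : bt t (JJ n v) = bt (ZMod.unitsMap (dvd_mul_left n 2) t) v := by
  refine twice_hom_ext (F := (bt t).comp (JJ n))
    (G := bt (ZMod.unitsMap (dvd_mul_left n 2) t)) (fun x => ?_) v
  rw [AddMonoidHom.comp_apply, JJ_e, bt_e, bt_e]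
  by_cases hx : x = 0
  · subst hx
    rw [jj_zero, if_pos rfl, if_pos rfl]
  · rw [if_neg hx, if_neg (jj_ne_zero hx), unit_mul_jj, hh_jj]

theorem main235 {n a b : ℕ} [NeZero n] [NeZero (2 * n)] (ha : 0 < a) (hb0 : 0 < b)
    (hn : n = 3 ^ a * 5 ^ b) {p f : ℕ} {P : (ZMod (2 * n))ˣ} (hp : (p : ZMod (2 * n)) = P)
    (hf : P ^ f = 1) (hf0 : f ≠ 0) (hneg : (-1 : (ZMod (2 * n))ˣ) ∉ Subgroup.zpowers P)
    {v : A (2 * n)} (hv0 : v 0 = 0) (hcnt : Even (cnt v)) (hs : sg v = 0)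
    (hb : ∀ t : (ZMod (2 * n))ˣ, beta P f t v = 0) :
    ∃ k : A (2 * n), bv k = 0 ∧ k 0 = 0 ∧ Even (cnt k) ∧ v - k ∈ RelA (2 * n) p := by
  have hnodd : Odd n := by
    rw [hn]
    exact (Odd.pow (by decide)).mul (Odd.pow (by decide))
  have h22 : (2 : ℕ) = 2 → 2 ∣ 2 * n := fun _ => dvd_mul_right _ _
  set P' : (ZMod n)ˣ := ZMod.unitsMap (dvd_mul_left n 2) P with hP'
  have hp' : (p : ZMod n) = P' := by
    rw [hP', ZMod.unitsMap_val, ← hp, ZMod.cast_natCast (dvd_mul_left n 2)]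
  have hf' : P' ^ f = 1 := by rw [hP', ← map_pow, hf, map_one]
  have hneg' : (-1 : (ZMod n)ˣ) ∉ Subgroup.zpowers P' := by
    intro h
    rw [← mem_powers_iff_mem_zpowers] at h
    obtain ⟨j, hj⟩ := h
    apply hneg
    have h1 : P ^ j = -1 := by
      apply unitsMap_inj hnodd
      rw [map_pow, ← hP']
      have h2 : ZMod.unitsMap (dvd_mul_left n 2) (-1 : (ZMod (2 * n))ˣ) = -1 := by
        apply Units.ext
        rw [ZMod.unitsMap_val, Units.val_neg, Units.val_neg, Units.val_one, Units.val_one]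
        exact (map_neg (ZMod.castHom (dvd_mul_left n 2) (ZMod n)) 1).trans (by rw [map_one])
      rw [h2]
      exact hj
    rw [← h1]
    exact Subgroup.npow_mem_zpowers P j
  have hv := mem_genE hnodd hv0
  unfold genE at hv
  obtain ⟨y, hy, r, hr, hyr⟩ := AddSubgroup.mem_sup.1 hv
  obtain ⟨w1, hw1, z, hz, hwz⟩ := AddSubgroup.mem_sup.1 hy
  obtain ⟨w, hw, rfl⟩ := hw1
  obtain ⟨c, hc⟩ := AddSubgroup.mem_zmultiples_iff.1 hz
  have hw0 : w 0 = 0 := hw
  have hrR : r ∈ Rel (2 * n) 2 p := sub_rel hr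
  have hveq : v = JJ n w + c • half (2 * n) 2 + r := by rw [← hyr, ← hwz, ← hc]
  -- the functionals
  have hbJ : ∀ (t : (ZMod (2 * n))ˣ) (u : A n), beta P f t (JJ n u)
      = beta P' f (ZMod.unitsMap (dvd_mul_left n 2) t) u := by
    intro t u
    refine twice_hom_ext (F := (beta P f t).comp (JJ n))
      (G := beta P' f (ZMod.unitsMap (dvd_mul_left n 2) t)) (fun x => ?_) u
    rw [AddMonoidHom.comp_apply, JJ_e, beta_e, beta_e]
    refine sum_congr rfl fun j _ => ?_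
    rw [unit_mul_jj, hh_jj, map_mul, map_pow]
  have hbw : ∀ t, beta P' f t w = 0 := by
    intro t
    obtain ⟨t', rfl⟩ := ZMod.unitsMap_surjective (dvd_mul_left n 2) t
    rw [← hbJ]
    have h1 := hb t'
    rw [hveq, map_add, map_add, map_zsmul, beta_half h22 t', smul_zero, add_zero,
      beta_rel (M := n) rfl (by norm_num) h22 hp hf t' hrR, add_zero] at h1
    exact h1
  have hhalf : half (2 * n) 2 = e ((2 * n / 2 : ℕ) : ZMod (2 * n)) := if_pos rfl
  have hhn : ((2 * n / 2 : ℕ) : ZMod (2 * n)) ≠ 0 := half_ne_zero (dvd_mul_right _ _)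
  -- the parity of `c`
  have hce : Even c := by
    let F : A (2 * n) →+ ZMod 2 :=
      (ZMod.castHom (dvd_mul_right 2 n) (ZMod 2)).toAddMonoidHom.comp sg
    have hF : ∀ x, F x = ZMod.castHom (dvd_mul_right 2 n) (ZMod 2) (sg x) := fun _ => rfl
    have hFr : F r = 0 := by
      have h1 : AddSubgroup.closure (relP (2 * n) ∪ relD (2 * n) 2) ≤ F.ker := by
        rw [AddSubgroup.closure_le]
        rintro v (⟨x, _, rfl⟩ | hv)
        · rw [SetLike.mem_coe, AddMonoidHom.mem_ker, hF, map_add, sg_e, sg_e, add_neg_cancel,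
            map_zero]
        · rw [SetLike.mem_coe, AddMonoidHom.mem_ker, hF,
            sg_relD Nat.prime_two (dvd_mul_right _ _) hv, map_zero]
      exact h1 hr
    have hFJ : F (JJ n w) = 0 := by
      refine (twice_hom_ext (F := F.comp (JJ n)) (G := 0) (fun x => ?_) w)
      rw [AddMonoidHom.comp_apply, JJ_e, hF, sg_e]
      unfold jj
      rw [map_natCast, Nat.cast_mul]
      have h2 : ((2 : ℕ) : ZMod 2) = 0 := by decide
      rw [h2, zero_mul]
      rfl
    have hFh : F (half (2 * n) 2) = 1 := by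
      rw [hhalf, hF, sg_e, map_natCast, Nat.mul_div_cancel_left n (by norm_num : 0 < 2)]
      exact (ZMod.natCast_eq_one_iff_odd).2 hnodd
    have h3 : F v = 0 := by rw [hF, hs, map_zero]
    rw [hveq, map_add, map_add, map_zsmul, hFr, hFJ, hFh, zero_add, add_zero, zsmul_eq_mul,
      mul_one] at h3
    exact (ZMod.intCast_eq_zero_iff_even).1 h3
  have hcw : Even (cnt w) := by
    have h1 : Even (cnt r) := even_cnt rfl Nat.prime_two hrR
    have h2 : cnt v = cnt w + c + cnt r := by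
      rw [hveq, map_add, map_add, map_zsmul, twice_cnt_JJ, hhalf, cnt_e, smul_eq_mul, mul_one]
    rw [h2, Int.even_add, Int.even_add] at hcnt
    tauto
  obtain ⟨k', hk1, hk2, hk3, hk4⟩ := main35 ha hb0 hn hp' hf' hf0 hneg' hw0 hcw hbw
  refine ⟨JJ n k' + c • half (2 * n) 2, ?_, ?_, ?_, ?_⟩
  · have h1 : bv (half (2 * n) 2) = 0 := by
      rw [hhalf]
      exact RelE_bv (AddSubgroup.subset_closure (Or.inr (Or.inr ⟨dvd_mul_right _ _, rfl⟩)))
    rw [map_add, map_zsmul, h1, smul_zero, add_zero]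
    funext t
    rw [bv_apply, twice_bt_JJ]
    exact congrFun hk1 _
  · have h1 : (c • half (2 * n) 2 : A (2 * n)) 0 = c * (half (2 * n) 2 : A (2 * n)) 0 := rfl
    rw [Finsupp.add_apply, twice_JJ_zero, hk2, h1, hhalf, e_zero hhn, mul_zero, add_zero]
  · rw [map_add, map_zsmul, twice_cnt_JJ, hhalf, cnt_e, smul_eq_mul, mul_one]
    exact hk3.add hce
  · have h1 : v - (JJ n k' + c • half (2 * n) 2) = JJ n (w - k') + r := by
      rw [hveq, map_sub]
      abel
    rw [h1]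
    exact add_mem (twice_JJ_RelA hnodd hk4)
      (Rel_le_RelA Nat.prime_two (dvd_mul_right _ _) hrR)

end Pool.Agent.FermT
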