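import Pool.Agent.FermT.Fin
import Pool.Agent.FermT.Twice
import Pool.Agent.FermT.Main43

/-!
# FT15: the Tate classes of the degrees `3 ^ a * 5 ^ b`, `2 * 3 ^ a * 5 ^ b`, `4 * 3 ^ a`

If `a = 0` or `b = 0` (resp. `4 * 3 ^ 0 = 2 ^ 2`) the degree is a prime power or twice an odd
prime power (or `1`, `2`): `tate_curves'` (`FermAll/Main.lean`) with `n` the prime power (`j = 0`,
`k` the exponent). Otherwise: `m ≥ 3`. `←`: `alg_isTate`, `alg_sum_eq` as in `tate_curves`. `→`: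
if `-1` is a power of `P`: `alg_ss`. Otherwise `alg_fin` with `main35`, `main235`, `main43` for `v
= toA s`, `f = orderOf P`, `p = P.val + m` (`exists_nat`); `red m ∈ levels`: `red_mem_levels`.
-/

set_option autoImplicit false

namespace Pool.Agent.FermT

open Finset Pool.Stick Pool.Agent.FermD Pool.Agent.FermAll

/-- degrees which are `n` or `2 n` for a prime power `n` -/
private theorem Final_pp {m : ℕ} [NeZero m] (P : (ZMod m)ˣ) {q k n : ℕ} (hq : q.Prime)
    (hn : n = q ^ k) (hmn : m = n ∨ Odd n ∧ m = 2 * n) (s : Multiset (ZMod m)) :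
    IsTate P s ∧ s.sum = 0 ↔ Alg (curves P) s := by
  refine tate_curves' hmn (fun l hl hln => ?_) s
  have h1 : l = q := by
    rw [hn] at hln
    exact (Nat.prime_dvd_prime_iff_eq hl hq).1 (hl.dvd_of_dvd_pow hln)
  refine ⟨0, k, ?_⟩
  rw [h1, ← hn]
  exact dvd_mul_right _ _

/-- the general case -/
private theorem Final_gen {m : ℕ} [NeZero m] (P : (ZMod m)ˣ) (hm3 : 3 ≤ m)
    (hlev : red m ∈ levels)
    (H : ∀ {p f : ℕ}, (p : ZMod m) = P → P ^ f = 1 → f ≠ 0 →
      (-1 : (ZMod m)ˣ) ∉ Subgroup.zpowers P → ∀ {v : A m}, v 0 = 0 → Even (cnt v) → sg v = 0 →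
      (∀ t : (ZMod m)ˣ, beta P f t v = 0) →
      ∃ k : A m, bv k = 0 ∧ k 0 = 0 ∧ Even (cnt k) ∧ v - k ∈ RelA m p)
    (s : Multiset (ZMod m)) : IsTate P s ∧ s.sum = 0 ↔ Alg (curves P) s := by
  obtain ⟨-, hP⟩ := exists_nat hm3 P
  constructor
  · rintro ⟨hT, hsum⟩
    by_cases hneg : (-1 : (ZMod m)ˣ) ∈ Subgroup.zpowers P
    · exact alg_ss hm3 hneg hT hsum
    · obtain ⟨h0, heven, hbal⟩ := isTate_iff.1 hT
      have hv0 : toA s 0 = 0 := by
        rw [toA_apply, Multiset.count_eq_zero_of_notMem h0]; rfl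
      have hcnt : Even (cnt (toA s)) := by
        rw [cnt_toA]
        exact_mod_cast heven
      have hsg : sg (toA s) = 0 := by rw [sg_toA, hsum]
      obtain ⟨k, hk, hk0, hkc, hrel⟩ := H hP (pow_orderOf_eq_one P) (orderOf_pos P).ne' hneg
        hv0 hcnt hsg hbal
      exact alg_fin hlev hP hT hsum hk hk0 hkc hrel
  · intro h
    exact ⟨alg_isTate (fun u hu => hu.1) h, alg_sum_eq (fun u hu => curves_sum hu) h⟩

private theorem Final_main235 {m a b : ℕ} [NeZero m] (ha : 0 < a) (hb0 : 0 < b)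
    (hm : m = 2 * (3 ^ a * 5 ^ b)) {p f : ℕ} {P : (ZMod m)ˣ} (hp : (p : ZMod m) = P)
    (hf : P ^ f = 1) (hf0 : f ≠ 0) (hneg : (-1 : (ZMod m)ˣ) ∉ Subgroup.zpowers P)
    {v : A m} (hv0 : v 0 = 0) (hcnt : Even (cnt v)) (hs : sg v = 0)
    (hb : ∀ t : (ZMod m)ˣ, beta P f t v = 0) :
    ∃ k : A m, bv k = 0 ∧ k 0 = 0 ∧ Even (cnt k) ∧ v - k ∈ RelA m p := by
  subst hm
  have : NeZero (3 ^ a * 5 ^ b) := ⟨by positivity⟩
  exact main235 ha hb0 rfl hp hf hf0 hneg hv0 hcnt hs hb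

theorem tate_fam {m : ℕ} [NeZero m] (P : (ZMod m)ˣ) (h : ∃ a b : ℕ, m = 3 ^ a * 5 ^ b ∨
    m = 2 * 3 ^ a * 5 ^ b ∨ m = 4 * 3 ^ a) (s : Multiset (ZMod m)) :
    IsTate P s ∧ s.sum = 0 ↔ Alg (curves P) s := by
  have h3 : ∀ {a b : ℕ}, 0 < a → 3 ≤ 3 ^ a * 5 ^ b := fun {a b} ha => by
    have h1 : 3 ^ 1 ≤ 3 ^ a := Nat.pow_le_pow_right (by norm_num) ha
    have h2 : 1 ≤ 5 ^ b := Nat.one_le_pow _ _ (by norm_num)
    nlinarith
  obtain ⟨a, b, hm | hm | hm⟩ := h
  · rcases Nat.eq_zero_or_pos a with ha | ha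
    · exact Final_pp P (q := 5) (k := b) (n := m) (by norm_num)
        (by rw [hm, ha, pow_zero, one_mul]) (Or.inl rfl) s
    · rcases Nat.eq_zero_or_pos b with hb | hb
      · exact Final_pp P (q := 3) (k := a) (n := m) (by norm_num)
          (by rw [hm, hb, pow_zero, mul_one]) (Or.inl rfl) s
      · refine Final_gen P (hm ▸ h3 ha) (red_mem_levels (a := 0) (b := a) (c := b)
          (Or.inl (by rw [hm, pow_zero, one_mul]))) ?_ s
        intro p f hp hf hf0 hneg v hv0 hcnt _ hbe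
        exact main35 ha hb hm hp hf hf0 hneg hv0 hcnt hbe
  · rcases Nat.eq_zero_or_pos a with ha | ha
    · exact Final_pp P (q := 5) (k := b) (n := 5 ^ b) (by norm_num) rfl
        (Or.inr ⟨(by decide : Odd 5).pow, by rw [hm, ha, pow_zero, mul_one]⟩) s
    · rcases Nat.eq_zero_or_pos b with hb | hb
      · exact Final_pp P (q := 3) (k := a) (n := 3 ^ a) (by norm_num) rfl
          (Or.inr ⟨(by decide : Odd 3).pow, by rw [hm, hb, pow_zero, mul_one]⟩) s
      · rw [mul_assoc] at hm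
        have h4 := h3 (b := b) ha
        refine Final_gen P (by rw [hm]; omega)
          (red_mem_levels (a := 1) (b := a) (c := b)
          (Or.inl (by rw [hm, pow_one, mul_assoc]))) ?_ s
        intro p f hp hf hf0 hneg v hv0 hcnt hs hbe
        exact Final_main235 ha hb hm hp hf hf0 hneg hv0 hcnt hs hbe
  · rcases Nat.eq_zero_or_pos a with ha | ha
    · exact Final_pp P (q := 2) (k := 2) (n := m) (by norm_num)
        (by rw [hm, ha, pow_zero, mul_one]; norm_num) (Or.inl rfl) s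
    · have h4 := h3 (b := 0) ha
      rw [pow_zero, mul_one] at h4
      refine Final_gen P (by rw [hm]; omega) (red_mem_levels (a := 2) (b := a) (c := 0)
        (Or.inl (by rw [hm, pow_zero, mul_one]; norm_num))) ?_ s
      intro p f hp hf hf0 hneg v hv0 hcnt hs hbe
      exact main43 ha hm hp hf hf0 hneg hv0 hcnt hs hbe

end Pool.Agent.FermT
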