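import Pool.Agent.FermT.Defs

/-!
# FT1: elements with vanishing functionals

`bv v = 0` says `bt t v = 0` for all units `t`, where `bt t (e x) = hh m (t x)` for `x ≠ 0` and
`bt t (e 0) = 0`; `hh m y = 1 / 2 - y.val / m`. If `k 0 = 0` then `bt t k = ∑ x, k x * hh m (t x)`.

* `beta_of_bv`: `beta P f t k = ∑ j < f, beta 1 1 (P ^ j * t) k` (on `e x`: `beta_e`), and
  `beta 1 1 t k = bt t k + k 0 / 2` (see the private lemma `beta_eq_bt` in `FermD/LiftA.lean`, copy it).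
* `cnt_sg`: `bt 1 k = 0` and `k 0 = 0` give `∑ x, k x * (1 / 2 - x.val / m) = 0`, so
  `m * cnt k = 2 * ∑ x, k x * x.val` (over `ℤ`), and `sg k` is the class of `∑ x, k x * x.val`.
  (`ext_apply`: `cnt k = ∑ x, k x • 1`, `sg k = ∑ x, k x • x`.)
* `even_of_bv`: `m` odd divides nothing here: `2 ∣ m * cnt k`, so `2 ∣ cnt k`.
* `sg_of_bv`: `m = 2 r`: `r * cnt k = ∑ x, k x * x.val`, so `sg k = r * cnt k`.
* `sg_zero_of_bv`: `cnt k = 2 d`: `m * d = ∑ x, k x * x.val`, which is zero in `ZMod m`.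
* `exists_sum`: induction on the closure (see `exists_coef` in `Stick/Lattice4.lean`).
-/

set_option autoImplicit false

namespace Pool.Agent.FermT

open Finset Pool.Stick Pool.Agent.FermD

variable {m : ℕ} [NeZero m]

open Pool.Agent.StarkRQ in
private theorem Basic_bt_eq {k : A m} (hk0 : k 0 = 0) (t : (ZMod m)ˣ) :
    bt t k = ∑ x, k x • hh m ((t : ZMod m) * x) := by
  unfold bt
  rw [ext_apply]
  refine sum_congr rfl fun x _ => ?_
  by_cases hx : x = 0
  · subst hx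
    rw [hk0, zero_smul, zero_smul]
  · rw [if_neg hx]

theorem beta_of_bv {k : A m} (hk : bv k = 0) (hk0 : k 0 = 0) (P : (ZMod m)ˣ) (f : ℕ)
    (t : (ZMod m)ˣ) : beta P f t k = 0 := by
  unfold beta
  rw [ext_apply]
  simp_rw [smul_sum]
  rw [sum_comm]
  refine sum_eq_zero fun j _ => ?_
  rw [← Basic_bt_eq hk0, ← bv_apply, hk]
  rfl

theorem cnt_sg {k : A m} (hk : bv k = 0) (hk0 : k 0 = 0) :
    ∃ S : ℤ, (m : ℤ) * cnt k = 2 * S ∧ sg k = (S : ZMod m) := by
  refine ⟨∑ x, k x * (x.val : ℤ), ?_, ?_⟩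
  · have h1 := congrFun hk 1
    rw [bv_apply, Basic_bt_eq hk0] at h1
    have h2 : ∀ x : ZMod m, Pool.Agent.StarkRQ.hh m (((1 : (ZMod m)ˣ) : ZMod m) * x) =
        1 / 2 - (x.val : ℝ) / m := by
      intro x
      rw [Units.val_one, one_mul]
      rfl
    simp_rw [h2] at h1
    have hm : (m : ℝ) ≠ 0 := by exact_mod_cast NeZero.ne m
    have h3 : cnt k = ∑ x, k x := by
      unfold cnt
      rw [ext_apply]
      simp
    have h4 : (m : ℝ) * (cnt k : ℝ) = 2 * ((∑ x, k x * (x.val : ℤ) : ℤ) : ℝ) := by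
      rw [h3]
      push_cast
      rw [mul_sum, mul_sum, ← sub_eq_zero, ← sum_sub_distrib]
      have h5 : ∑ x, (2 * (m : ℝ)) * (k x • (1 / 2 - (x.val : ℝ) / m)) = 0 := by
        rw [← mul_sum, h1]
        simp
      rw [← h5]
      refine sum_congr rfl fun x _ => ?_
      rw [zsmul_eq_mul]
      field_simp
    exact_mod_cast h4
  · unfold sg
    rw [ext_apply]
    push_cast
    refine sum_congr rfl fun x _ => ?_
    rw [zsmul_eq_mul, ZMod.natCast_zmod_val]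

theorem even_of_bv (hm : Odd m) {k : A m} (hk : bv k = 0) (hk0 : k 0 = 0) : Even (cnt k) := by
  obtain ⟨S, hS, -⟩ := cnt_sg hk hk0
  have h1 : Even ((m : ℤ) * cnt k) := ⟨S, by rw [hS]; ring⟩
  rcases Int.even_mul.1 h1 with h | h
  · exact absurd ((Int.even_coe_nat m).1 h) (Nat.not_even_iff_odd.2 hm)
  · exact h

theorem sg_of_bv (hm : 2 ∣ m) {k : A m} (hk : bv k = 0) (hk0 : k 0 = 0) :
    sg k = ((m / 2 : ℕ) : ZMod m) * (cnt k : ZMod m) := by
  obtain ⟨S, hS, hs⟩ := cnt_sg hk hk0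
  obtain ⟨r, hr⟩ := hm
  have h1 : m / 2 = r := by omega
  have h2 : S = (r : ℤ) * cnt k := by
    have h3 : (m : ℤ) = 2 * (r : ℤ) := by exact_mod_cast hr
    rw [h3] at hS
    linarith
  rw [hs, h1, h2]
  push_cast
  rfl

theorem sg_zero_of_bv {k : A m} (hk : bv k = 0) (hk0 : k 0 = 0) (hcnt : Even (cnt k)) :
    sg k = 0 := by
  obtain ⟨S, hS, hs⟩ := cnt_sg hk hk0
  obtain ⟨d, hd⟩ := hcnt
  have h2 : S = (m : ℤ) * d := by
    rw [hd] at hS
    linarith
  rw [hs, h2]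
  push_cast
  rw [ZMod.natCast_self, zero_mul]

theorem exists_sum {v : A m} (hv : v ∈ UU m) :
    ∃ w : (ZMod m)ˣ → ℤ, v = ∑ u : (ZMod m)ˣ, w u • e (u : ZMod m) :=
  exists_coef hv

end Pool.Agent.FermT
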