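import Pool.Agent.FermAll.Main

/-!
# Tate classes on Fermat varieties of the degrees `3 ^ a * 5 ^ b`, `2 * 3 ^ a * 5 ^ b`, `4 * 3 ^ a`

Definitions for the proof (all characteristics).
-/

set_option autoImplicit false

namespace Pool.Agent.FermT

open Finset Pool.Stick Pool.Agent.FermD

/-- the sum of `g` over the orbit of `u` under the powers of `P⁻¹` -/
def orb {m : ℕ} (P : (ZMod m)ˣ) (f : ℕ) (g : (ZMod m)ˣ → ℤ) (u : (ZMod m)ˣ) : ℤ :=
  ∑ j ∈ range f, g ((P ^ j)⁻¹ * u)

/-- the span of the units -/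
noncomputable def UU (m : ℕ) : AddSubgroup (A m) :=
  AddSubgroup.closure {v : A m | ∃ u : (ZMod m)ˣ, v = e (u : ZMod m)}

end Pool.Agent.FermT
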