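import Pool.Agent.FermT.Basic

/-!
# FT14: from the group to the cycles

* `alg_ss`: `-1` is a power of `P`: as in the first case of the proof of
  `Pool.Agent.FermAll.algF_of_isTate`.
* `alg_fin`: let `toA s - k ∈ RelA m p` with `bv k = 0`, `k 0 = 0`, `cnt k` even. There is a Hodge
  multiset `κ` with `toA κ - k ∈ closure (relP m)`, and `κ` is in `Alg (curves P)`. The multiset
  `s + κ.map Neg.neg` is in `AlgF p`, and the pairs in `κ.map Neg.neg + κ` can be removed.
-/

set_option autoImplicit false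

namespace Pool.Agent.FermT

open Finset Pool.Stick Pool.Agent.FermD Pool.Agent.FermAll

variable {m : ℕ} [NeZero m] {P : (ZMod m)ˣ}

omit [NeZero m] in
private theorem Fin_neg_mem_relP {κ : Multiset (ZMod m)} (h0 : (0 : ZMod m) ∉ κ) :
    toA (κ.map Neg.neg) + toA κ ∈ AddSubgroup.closure (relP m) := by
  induction κ using Multiset.induction_on with
  | empty =>
    rw [Multiset.map_zero, toA_zero, add_zero]
    exact AddSubgroup.zero_mem _
  | cons c κ ih =>
    rw [Multiset.mem_cons, not_or] at h0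
    rw [Multiset.map_cons, toA_cons, toA_cons]
    have h1 : e c + e (-c) ∈ AddSubgroup.closure (relP m) :=
      AddSubgroup.subset_closure ⟨c, Ne.symm h0.1, rfl⟩
    have h2 := AddSubgroup.add_mem _ h1 (ih h0.2)
    convert h2 using 1
    abel

private theorem Fin_cancel {T : Set (Multiset (ZMod m))} {κ : Multiset (ZMod m)}
    (h0 : (0 : ZMod m) ∉ κ) {s : Multiset (ZMod m)}
    (h : Pool.Agent.FermD.Alg T (s + (κ.map Neg.neg + κ))) : Pool.Agent.FermD.Alg T s := by
  induction κ using Multiset.induction_on with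
  | empty => simpa using h
  | cons c κ ih =>
    rw [Multiset.mem_cons, not_or] at h0
    refine ih h0.2 (Pool.Agent.FermD.Alg.cancel c (Ne.symm h0.1) ?_)
    rw [Multiset.map_cons] at h
    convert h using 1
    simp only [Multiset.insert_eq_cons, ← Multiset.singleton_add]
    generalize Multiset.map Neg.neg κ = κ'
    abel

private theorem Fin_exists {k : A m} (hk0 : k 0 = 0) :
    ∃ κ : Multiset (ZMod m), (0 : ZMod m) ∉ κ ∧
      toA κ - k ∈ AddSubgroup.closure (relP m) := by
  classical
  have key : ∀ S : Finset (ZMod m), (0 : ZMod m) ∉ S → ∃ κ : Multiset (ZMod m),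
      (0 : ZMod m) ∉ κ ∧
        toA κ - ∑ x ∈ S, k x • e x ∈ AddSubgroup.closure (relP m) := by
    intro S
    induction S using Finset.induction_on with
    | empty =>
      intro _
      refine ⟨0, Multiset.notMem_zero _, ?_⟩
      rw [toA_zero, Finset.sum_empty, sub_zero]
      exact AddSubgroup.zero_mem _
    | insert a S ha ih =>
      intro h0
      rw [Finset.mem_insert, not_or] at h0
      obtain ⟨κ, h1, h2⟩ := ih h0.2
      have ha0 : a ≠ 0 := Ne.symm h0.1
      have hrep : ∀ (j : ℕ) (x : ZMod m), toA (Multiset.replicate j x) = (j : ℤ) • e x := by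
        intro j x
        rw [toA, Multiset.map_replicate, Multiset.sum_replicate, natCast_zsmul]
      have hpair : e a + e (-a) ∈ AddSubgroup.closure (relP m) :=
        AddSubgroup.subset_closure ⟨a, ha0, rfl⟩
      rcases le_total 0 (k a) with hka | hka
      · obtain ⟨j, hj⟩ := Int.eq_ofNat_of_zero_le hka
        refine ⟨Multiset.replicate j a + κ, ?_, ?_⟩
        · rw [Multiset.mem_add, not_or]
          exact ⟨fun h => ha0 (Multiset.eq_of_mem_replicate h).symm, h1⟩
        · rw [toA_add, hrep, Finset.sum_insert ha, hj]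
          convert h2 using 1
          abel
      · obtain ⟨j, hj⟩ := Int.eq_ofNat_of_zero_le (neg_nonneg.2 hka)
        refine ⟨Multiset.replicate j (-a) + κ, ?_, ?_⟩
        · rw [Multiset.mem_add, not_or]
          exact ⟨fun h => ha0 (neg_eq_zero.1 (Multiset.eq_of_mem_replicate h).symm), h1⟩
        · rw [toA_add, hrep, Finset.sum_insert ha]
          have h3 : k a = -(j : ℤ) := by linarith
          rw [h3]
          have h4 := AddSubgroup.add_mem _ (AddSubgroup.zsmul_mem _ hpair (j : ℤ)) h2
          convert h4 using 1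
          rw [smul_add, neg_smul]
          abel
  obtain ⟨κ, h1, h2⟩ := key (univ.erase 0) (Finset.notMem_erase _ _)
  refine ⟨κ, h1, ?_⟩
  have h3 : k = ∑ x ∈ univ.erase (0 : ZMod m), k x • e x := by
    have h4 : k = ∑ x : ZMod m, k x • e x := by
      ext y
      rw [Finsupp.finsetSum_apply]
      simp [e, Finsupp.single_apply]
    conv_lhs => rw [h4]
    rw [← Finset.add_sum_erase univ _ (Finset.mem_univ (0 : ZMod m)), hk0, zero_smul, zero_add]
  have h5 : toA κ - k = toA κ - ∑ x ∈ univ.erase (0 : ZMod m), k x • e x := by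
    rw [← h3]
  rw [h5]
  exact h2

private theorem Fin_isTate {s : Multiset (ZMod m)} (h : IsHodge s) : IsTate P s := by
  obtain ⟨h0, h1, h2⟩ := isHodge_iff_bv.1 h
  refine isTate_iff.2 ⟨h0, h1, fun t => beta_of_bv h2 ?_ P _ t⟩
  rw [toA_apply, Multiset.count_eq_zero_of_notMem h0]
  rfl

private theorem Fin_four {u : Multiset (ZMod m)} (hu : u ∈ four m) :
    Pool.Agent.FermD.Alg (curves P) u := by
  obtain ⟨hc, hu⟩ := hu
  obtain ⟨a, b, c, d, rfl⟩ := Multiset.card_eq_four.1 hc
  have hsum := hodge_sum hu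
  have h0 := hu.1
  simp only [Multiset.insert_eq_cons, Multiset.mem_cons, Multiset.mem_singleton, not_or,
    Multiset.sum_cons, Multiset.sum_singleton] at h0 hsum
  obtain ⟨ha, hb, hc', hd⟩ := h0
  by_cases hab : a + b = 0
  · have hb' : b = -a := by linear_combination hab
    have hd' : d = -c := by linear_combination hsum - hab
    subst hb' hd'
    have h := Pool.Agent.FermD.Alg.add (Pool.Agent.FermD.Alg.pair (T := curves P) a (Ne.symm ha))
      (Pool.Agent.FermD.Alg.pair (T := curves P) c (Ne.symm hc'))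
    convert h using 1
    simp only [Multiset.insert_eq_cons, ← Multiset.singleton_add]
    abel
  · refine Pool.Agent.FermD.Alg.cancel (a + b) hab
      (Pool.Agent.FermD.Alg.base ⟨?_, a, b, -(a + b), c, d, a + b, by ring,
      by linear_combination hsum, ?_⟩)
    · exact isTate_add (Fin_isTate hu) (isTate_pair hab)
    · simp only [Multiset.insert_eq_cons, ← Multiset.singleton_add]
      abel

theorem alg_ss (hm3 : 3 ≤ m) (hneg : (-1 : (ZMod m)ˣ) ∈ Subgroup.zpowers P)
    {s : Multiset (ZMod m)} (hT : IsTate P s) (hsum : s.sum = 0) : Alg (curves P) s := by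
  obtain ⟨_, hP⟩ := exists_nat hm3 P
  refine algF_alg hP ?_
  obtain ⟨h0, heven, hbal⟩ := isTate_iff.1 hT
  have hPu : IsUnit ((((P : ZMod m).val + m : ℕ) : ZMod m)) := by
    rw [hP]
    exact P.isUnit
  have hv0 : toA s 0 = 0 := by
    rw [toA_apply, Multiset.count_eq_zero_of_notMem h0]; rfl
  have hcnt : Even (cnt (toA s)) := by
    rw [cnt_toA]
    exact_mod_cast heven
  have hsg : sg (toA s) = 0 := by rw [sg_toA, hsum]
  apply algF_of_relC hPu
  change toA s ∈ RelC m _
  rw [← mem_powers_iff_mem_zpowers] at hneg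
  obtain ⟨j, hj⟩ := hneg
  have hj' : ((((P : ZMod m).val + m : ℕ) : ZMod m)) ^ j = -1 := by
    rw [hP, ← Units.val_pow_eq_pow_val]
    have : P ^ j = -1 := hj
    rw [this, Units.val_neg, Units.val_one]
  have h1 := mem_relS hm3 hv0 hsg hcnt
  have h2 : AddSubgroup.closure (relP m ∪ relS m) ≤ RelC m ((P : ZMod m).val + m) := by
    rw [AddSubgroup.closure_le]
    rintro v (hv | ⟨x, y, z, x', y', z', hx, hy, hz, hx', hy', hz', h1, h2, rfl⟩)
    · exact AddSubgroup.subset_closure (Or.inl (Or.inl hv))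
    · refine AddSubgroup.subset_closure (Or.inr ⟨x, y, z, x', y', z', hx, hy, hz, hx', hy', hz',
        h1, h2, ?_, rfl⟩)
      have hss : ∀ x y : ZMod m, x ≠ 0 → y ≠ 0 →
          AlgG ((P : ZMod m).val + m) {x, y} := fun x y hx hy =>
        AlgG.super x y j j hx hy (by rw [hj', neg_one_mul]) (by rw [hj', neg_one_mul])
      have h := AlgG.add (AlgG.add (hss x y hx hy) (hss z x' hz hx')) (hss y' z' hy' hz')
      convert h using 1
      simp only [Multiset.insert_eq_cons, ← Multiset.singleton_add]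
      abel
  exact h2 h1

theorem alg_fin (hlev : red m ∈ levels) {p : ℕ} (hp : (p : ZMod m) = P) {s : Multiset (ZMod m)}
    (hT : IsTate P s) (hsum : s.sum = 0) {k : A m} (hk : bv k = 0) (hk0 : k 0 = 0)
    (hkc : Even (cnt k)) (h : toA s - k ∈ RelA m p) : Alg (curves P) s := by
  obtain ⟨h0, heven, hbal⟩ := isTate_iff.1 hT
  have hPu : IsUnit (p : ZMod m) := hp ▸ P.isUnit
  have hPA : AddSubgroup.closure (relP m) ≤ RelA m p := by
    unfold RelA
    exact AddSubgroup.closure_mono (fun v hv => Or.inl (Or.inl hv))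
  have hPE : AddSubgroup.closure (relP m) ≤ RelE m := by
    unfold RelE
    exact AddSubgroup.closure_mono (fun v hv => Or.inl (Or.inl hv))
  obtain ⟨κ, hκ0, hκ⟩ := Fin_exists hk0
  -- the multiset `κ` is a Hodge multiset
  have hκc : Even κ.card := by
    have h1 := even_cnt_relA (hPA hκ)
    rw [map_sub, cnt_toA] at h1
    have h2 := h1.add hkc
    rw [sub_add_cancel] at h2
    exact_mod_cast h2
  have hκb : bv (toA κ) = 0 := by
    have h1 := RelE_bv (hPE hκ)
    rw [map_sub, hk, sub_zero] at h1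
    exact h1
  have hH : IsHodge κ := isHodge_iff_bv.2 ⟨hκ0, hκc, hκb⟩
  have hAκ : Pool.Agent.FermD.Alg (curves P) κ :=
    alg_le (fun u hu => Fin_four hu) ((hodge_four hlev κ).1 hH)
  -- the multiset `s' = s + κ'`
  have hκn0 : (0 : ZMod m) ∉ κ.map Neg.neg := by
    intro h1
    obtain ⟨c, hc, h2⟩ := Multiset.mem_map.1 h1
    rw [neg_eq_zero] at h2
    exact hκ0 (h2 ▸ hc)
  have hs0 : (0 : ZMod m) ∉ s + κ.map Neg.neg := by
    rw [Multiset.mem_add, not_or]
    exact ⟨h0, hκn0⟩
  have hmem : toA (s + κ.map Neg.neg) ∈ RelA m p := by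
    have h1 := AddSubgroup.add_mem _ (AddSubgroup.sub_mem _ h (hPA hκ))
      (hPA (Fin_neg_mem_relP hκ0))
    rw [toA_add]
    convert h1 using 1
    abel
  have hv0 : toA (s + κ.map Neg.neg) 0 = 0 := by
    rw [toA_apply, Multiset.count_eq_zero_of_notMem hs0]; rfl
  have hκs : (κ.map Neg.neg).sum = 0 := by
    have h1 : (κ.map Neg.neg).sum = -κ.sum := by
      have h3 := Multiset.sum_map_neg (f := fun i : ZMod m => i) (m := κ)
      rw [Multiset.map_id'] at h3
      exact h3
    rw [h1, hodge_sum hH, neg_zero]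
  have hsg : sg (toA (s + κ.map Neg.neg)) = 0 := by
    rw [sg_toA, Multiset.sum_add, hsum, hκs, add_zero]
  have hF : AlgF p (s + κ.map Neg.neg) := by
    apply algF_of_relC hPu
    exact mem_relC hp (AddSubgroup.mem_sup_left hmem) hv0 hsg
  have hA := Pool.Agent.FermD.Alg.add (algF_alg hp hF) hAκ
  rw [add_assoc] at hA
  exact Fin_cancel hκ0 hA

end Pool.Agent.FermT
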