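import Pool.Agent.FermT.Defs

/-!
# FT4: iterated distribution relations for arbitrary divisors

Induction on `N` (`Nat.recOnMul` or strong induction with a prime factor `N = q * N'`). The case of prime
powers is `OddDist.iter` (`FermD/Dist.lean`), and the proof of the step is the same: let `N = q * N'`,
`q` prime. Sum over the fibres of `z ↦ N' z`: for `w` with `q w = q (N' x)` we have `N' ∣ w.val` (as
`q * N' ∣ m`: `fibre_iff`, `val_mul_eq`), so `w = N' c`, and the fibre over `w` has the sum `f (N' c) = f w`
by induction; then `hf.dist q` at the point `N' x`.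
-/

set_option autoImplicit false

namespace Pool.Agent.FermT

open Finset Pool.Stick Pool.Agent.FermD

theorem iterN {m : ℕ} [NeZero m] {W : Type} [AddCommGroup W] {f : ZMod m → W} (hf : OddDist f)
    {N : ℕ} (hN : N ∣ m) (x : ZMod m) :
    ∑ z ∈ univ.filter (fun z : ZMod m => (N : ZMod m) * z = (N : ZMod m) * x), f z =
      f ((N : ZMod m) * x) := by
  induction N using Nat.strong_induction_on generalizing x with
  | _ N ih =>
    rcases Nat.eq_zero_or_pos N with h0 | h0
    · rw [h0, zero_dvd_iff] at hN
      exact absurd hN (NeZero.ne m)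
    by_cases h1 : N = 1
    · have h2 : univ.filter (fun z : ZMod m => (N : ZMod m) * z = (N : ZMod m) * x) = {x} := by
        ext z
        rw [h1, Nat.cast_one, one_mul]
        simp
      rw [h2, sum_singleton, h1, Nat.cast_one, one_mul]
    · have hq : N.minFac.Prime := Nat.minFac_prime h1
      obtain ⟨N', hN'⟩ := Nat.minFac_dvd N
      generalize N.minFac = q at hq hN'
      have hN'0 : 0 < N' := by
        rcases Nat.eq_zero_or_pos N' with h | h
        · rw [h, mul_zero] at hN'
          omega
        · exact h
      have hlt : N' < N := by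
        rw [hN']
        exact lt_mul_of_one_lt_left hN'0 hq.one_lt
      have hk' : N' ∣ m := (Dvd.intro_left q hN'.symm).trans hN
      have hpm : q ∣ m := (Dvd.intro N' hN'.symm).trans hN
      have ep : ∀ y : ZMod m, (N : ZMod m) * y = (q : ZMod m) * ((N' : ZMod m) * y) := by
        intro y
        rw [hN', Nat.cast_mul, mul_assoc]
      have hsurj : ∀ w : ZMod m, (q : ZMod m) * w = q * ((N' : ZMod m) * x) →
          ∃ c : ZMod m, (N' : ZMod m) * c = w := by
        intro w hw
        obtain ⟨M, hM⟩ := hN
        rw [hN'] at hM
        have h1 : m = q * (N' * M) := by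
          rw [← mul_assoc]
          exact hM
        rw [fibre_iff h1 hq.pos] at hw
        have h2 : m = N' * (q * M) := by
          rw [hM]
          ring
        have h3 : N' ∣ ((N' : ZMod m) * x).val := by
          rw [val_mul_eq h2]
          exact dvd_mul_right _ _
        have h4 : N' ∣ w.val := by
          have h5 : N' ∣ w.val % (N' * M) := by
            rw [hw]
            exact (Nat.dvd_mod_iff (dvd_mul_right _ _)).2 h3
          exact (Nat.dvd_mod_iff (dvd_mul_right _ _)).1 h5
        obtain ⟨c, hc⟩ := h4
        refine ⟨(c : ZMod m), ?_⟩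
        rw [← Nat.cast_mul, ← hc, ZMod.natCast_zmod_val]
      rw [ep x, ← hf.dist q hq hpm ((N' : ZMod m) * x)]
      rw [← Finset.sum_fiberwise_of_maps_to (g := fun z : ZMod m => (N' : ZMod m) * z)
        (t := univ.filter (fun w : ZMod m => (q : ZMod m) * w = q * ((N' : ZMod m) * x)))]
      · refine sum_congr rfl fun w hw => ?_
        rw [mem_filter] at hw
        obtain ⟨c, hc⟩ := hsurj w hw.2
        have h1 := ih N' hlt hk' c
        rw [hc] at h1
        rw [← h1]
        refine sum_congr ?_ fun _ _ => rfl
        ext z
        simp only [mem_filter, mem_univ, true_and]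
        constructor
        · exact fun h => h.2
        · intro h
          refine ⟨?_, h⟩
          rw [ep z, h]
          exact hw.2
      · intro z hz
        rw [mem_filter] at hz ⊢
        rw [ep z] at hz
        exact ⟨mem_univ _, hz.2⟩

/-- the case `m = N * d`: the sum over the `z ≡ c` modulo `d` -/
theorem iterN' {m : ℕ} [NeZero m] {W : Type} [AddCommGroup W] {f : ZMod m → W} (hf : OddDist f)
    {N d : ℕ} (hN : m = N * d) (c : ℕ) :
    ∑ z ∈ univ.filter (fun z : ZMod m => z.val % d = c % d), f z = f ((N * c : ℕ) : ZMod m) := by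
  have hN0 : 0 < N := by
    rcases Nat.eq_zero_or_pos N with h | h
    · rw [h, zero_mul] at hN
      exact absurd hN (NeZero.ne m)
    · exact h
  have h1 := iterN hf (N := N) ⟨d, hN⟩ (c : ZMod m)
  rw [Nat.cast_mul, ← h1]
  refine sum_congr ?_ fun _ _ => rfl
  ext z
  simp only [mem_filter, mem_univ, true_and]
  rw [fibre_iff hN hN0, ZMod.val_natCast, Nat.mod_mod_of_dvd c ⟨N, by rw [hN, mul_comm]⟩]

end Pool.Agent.FermT
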