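import Pool.Agent.FermT.Basic
import Pool.Agent.FermT.Comb
import Pool.Agent.FermT.Nonvan
import Pool.Agent.FermT.Two
import Pool.Agent.FermT.Gen
import Pool.Agent.FermT.Chi

/-!
# FT11: degree `3 ^ a * 5 ^ b`

Let `X = e (m / 3)`. By `gen35` and `exists_sum`: `v = ∑ u, w u • e u + c • X + k` with `bv k = 0`.
All elements have value `0` at `0` (`v`, the `e u`, `X`), so `k 0 = 0`. `m` is odd, so `cnt k` is
even
(`even_of_bv`), and `cnt v = ∑ w u + c + cnt k`, so `∑ w u + c` is even.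

Let `χ` be the character of `chi3`. By `two35` for the odd distribution `x ↦ (class of e x in
A m ⧸ bv.ker)` (`oddDist_mk`): `bv (2 • X - ∑_{χ u = 1} e u) = 0` (value `0` at `0`). Let
`g u = 2 * w u + (if χ u = 1 then c else 0)`. Then `2 • v - ∑ u, g u • e u = c • (2 • X - ∑_{χ u =
1} e u)
+ 2 • k` is in `bv.ker` with value `0` at `0`, so `beta P f t (∑ u, g u • e u) = 2 * beta P f t v =
0`
(`beta_of_bv`) and `orb_of_beta` gives the hypothesis `hW` of `comb_pos`, `comb_neg`. (`hL`: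
`nonvan`:
for `l = 3` take `j` with `3 ^ j ≡ -1` modulo `5 ^ b` from `prim53` (`n = 5 ^ b - 1`), for `l = 5`
from
`prim35`.)

`c` is even: suppose not; then `∑ w u` is odd, and so is `∑ w u * χ u`. If `χ P = 1`: `4 * ∑ w u *
χ u =
- c * φ(m)` and `8 ∣ φ(m) = 2 * 3 ^ (a-1) * 4 * 5 ^ (b-1)`, so `∑ w u * χ u` is even, a
contradiction. If
`χ P = -1`: `comb_neg` and `even_of_orb` give that `∑ w u` is even, a contradiction.

Let `c = 2 d` and `g' u = w u + (if χ u = 1 then d else 0)`. Then `orb g' (-u) = orb g' u` (as `g =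
2 g'`)
and `∑ u, g' u • e u ∈ RelA m p` (`mem_of_orb`). Put `k' = v - ∑ u, g' u • e u =
d • (2 • X - ∑_{χ u = 1} e u) + k`: `bv k' = 0`, `k' 0 = 0`, and `cnt k'` is even (`even_of_bv`).
-/

set_option autoImplicit false

namespace Pool.Agent.FermT

open Finset Pool.Stick Pool.Agent.FermD

private theorem Main35_nonvan {m a b : ℕ} (hm : m = 3 ^ a * 5 ^ b) (l : ℕ) (hl : l.Prime)
    (hlm : l ∣ m) : ∃ j k : ℕ, m ∣ l ^ k * (l ^ j + 1) := by
  rw [hm] at hlm
  have hpos3 : 1 ≤ 3 ^ a := Nat.one_le_pow _ _ (by norm_num)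
  have hpos5 : 1 ≤ 5 ^ b := Nat.one_le_pow _ _ (by norm_num)
  rcases (Nat.Prime.dvd_mul hl).1 hlm with h | h
  · have h3 : l = 3 := (Nat.prime_dvd_prime_iff_eq hl Nat.prime_three).1 (hl.dvd_of_dvd_pow h)
    subst h3
    rcases Nat.eq_zero_or_pos b with hb | hb
    · subst hb
      exact ⟨0, a, by rw [hm]; exact ⟨2, by ring⟩⟩
    · have hc : (5 ^ b - 1).Coprime 5 := by
        rw [Nat.Coprime, Nat.gcd_comm]
        refine (Nat.Prime.coprime_iff_not_dvd Nat.prime_five).2 fun h4 => ?_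
        have h5 : 5 ∣ 5 ^ b := dvd_pow_self 5 hb.ne'
        omega
      obtain ⟨j, hj⟩ := prim53 b _ hc
      refine ⟨j, a, ?_⟩
      have h6 : 5 ^ b ∣ 3 ^ j + 1 := by
        have h7 := Nat.ModEq.add_right 1 hj
        rw [Nat.sub_add_cancel hpos5] at h7
        exact (Nat.modEq_zero_iff_dvd).1 (h7.trans (Nat.modEq_zero_iff_dvd.2 dvd_rfl))
      rw [hm]
      exact mul_dvd_mul dvd_rfl h6
  · have h3 : l = 5 := (Nat.prime_dvd_prime_iff_eq hl Nat.prime_five).1 (hl.dvd_of_dvd_pow h)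
    subst h3
    rcases Nat.eq_zero_or_pos a with ha | ha
    · subst ha
      exact ⟨0, b, by rw [hm]; exact ⟨2, by ring⟩⟩
    · have hc : (3 ^ a - 1).Coprime 3 := by
        rw [Nat.Coprime, Nat.gcd_comm]
        refine (Nat.Prime.coprime_iff_not_dvd Nat.prime_three).2 fun h4 => ?_
        have h5 : 3 ∣ 3 ^ a := dvd_pow_self 3 ha.ne'
        omega
      obtain ⟨j, hj⟩ := prim35 a _ hc
      refine ⟨j, b, ?_⟩
      have h6 : 3 ^ a ∣ 5 ^ j + 1 := by
        have h7 := Nat.ModEq.add_right 1 hj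
        rw [Nat.sub_add_cancel hpos3] at h7
        exact (Nat.modEq_zero_iff_dvd).1 (h7.trans (Nat.modEq_zero_iff_dvd.2 dvd_rfl))
      rw [hm, mul_comm]
      exact mul_dvd_mul dvd_rfl h6

private theorem Main35_card {m a b : ℕ} [NeZero m] (ha0 : 0 < a) (hb0 : 0 < b)
    (hm : m = 3 ^ a * 5 ^ b) : 8 ∣ Fintype.card (ZMod m)ˣ := by
  rw [ZMod.card_units_eq_totient, hm]
  have hc : Nat.Coprime (3 ^ a) (5 ^ b) := Nat.Coprime.pow _ _ (by norm_num)
  rw [Nat.totient_mul hc, Nat.totient_prime_pow Nat.prime_three ha0,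
    Nat.totient_prime_pow Nat.prime_five hb0]
  exact ⟨3 ^ (a - 1) * 5 ^ (b - 1), by ring⟩

private theorem Main35_orb {m : ℕ} (P : (ZMod m)ˣ) (f : ℕ) (g : (ZMod m)ˣ → ℤ)
    (u : (ZMod m)ˣ) : orb P f (fun v => 2 * g v) u = 2 * orb P f g u := by
  unfold orb
  rw [mul_sum]

theorem main35 {m a b : ℕ} [NeZero m] (ha : 0 < a) (hb : 0 < b) (hm : m = 3 ^ a * 5 ^ b)
    {p f : ℕ} {P : (ZMod m)ˣ} (hp : (p : ZMod m) = P) (hf : P ^ f = 1) (hf0 : f ≠ 0)
    (hneg : (-1 : (ZMod m)ˣ) ∉ Subgroup.zpowers P) {v : A m} (hv0 : v 0 = 0)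
    (hcnt : Even (cnt v)) (hb : ∀ t : (ZMod m)ˣ, beta P f t v = 0) :
    ∃ k : A m, bv k = 0 ∧ k 0 = 0 ∧ Even (cnt k) ∧ v - k ∈ RelA m p := by
  classical
  have hb0 : 0 < b := ‹0 < b›
  have h3 : 3 ∣ m := by
    rw [hm]
    exact (dvd_pow_self 3 ha.ne').mul_right _
  have hm0 : 0 < m := NeZero.pos m
  have hm3 : 0 < m / 3 := Nat.div_pos (Nat.le_of_dvd hm0 h3) (by norm_num)
  have hm1 : m ≠ 1 := by
    intro h
    rw [h] at h3
    omega
  have hodd : Odd m := by
    rw [hm]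
    exact (Odd.pow (by decide)).mul (Odd.pow (by decide))
  have : Fact (1 < m) := ⟨by omega⟩
  -- decomposition
  obtain ⟨s, hs', k, hk, hsum⟩ := AddSubgroup.mem_sup.1 (gen35 ha hb0 hm v)
  obtain ⟨U, hU, cx, hcx, hsum'⟩ := AddSubgroup.mem_sup.1 hs'
  obtain ⟨w, hw⟩ := exists_sum hU
  obtain ⟨c, hc⟩ := AddSubgroup.mem_zmultiples_iff.1 hcx
  rw [AddMonoidHom.mem_ker] at hk
  set X : A m := e ((m / 3 : ℕ) : ZMod m) with hX
  have hv : v = U + c • X + k := by rw [hc, hsum', hsum]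
  have hX0 : X 0 = 0 := by
    rw [hX]
    apply e_zero
    rw [Ne, ZMod.natCast_eq_zero_iff]
    intro h
    have := Nat.le_of_dvd hm3 h
    omega
  have hE0 : ∀ g : (ZMod m)ˣ → ℤ, (∑ u : (ZMod m)ˣ, g u • (e (u : ZMod m) : A m)) 0 = 0 := by
    intro g
    rw [Finsupp.finsetSum_apply]
    refine sum_eq_zero fun u _ => ?_
    rw [Finsupp.smul_apply, e_zero u.ne_zero, smul_zero]
  have hU0 : U 0 = 0 := by rw [hw]; exact hE0 w
  have hk0 : k 0 = 0 := by
    have h5 := hv0
    rw [hv, Finsupp.add_apply, Finsupp.add_apply, hU0, Finsupp.smul_apply, hX0] at h5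
    simpa using h5
  -- the character
  obtain ⟨χ, hχn, hχ1⟩ := chi3 h3
  set S1 : A m := ∑ u : (ZMod m)ˣ, (if χ u = 1 then (1 : ℤ) else 0) • e (u : ZMod m) with hS1
  set D : A m := X + X - S1 with hD
  have hS10 : S1 0 = 0 := hE0 _
  have hD0 : D 0 = 0 := by
    rw [hD, Finsupp.sub_apply, Finsupp.add_apply, hX0, hS10]
    norm_num
  have hDbv : bv D = 0 := by
    have h5 := two35 ha hb0 hm (oddDist_mk (R := (bv (m := m)).ker)
      (fun v hv => AddMonoidHom.mem_ker.2 (RelE_bv hv)))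
    have h6 : QuotientAddGroup.mk' (bv (m := m)).ker D = 0 := by
      have h7 : QuotientAddGroup.mk' (bv (m := m)).ker X +
          QuotientAddGroup.mk' (bv (m := m)).ker X =
          ∑ u ∈ univ.filter (fun u : (ZMod m)ˣ => (u : ZMod m).val % 3 = 1),
            QuotientAddGroup.mk' (bv (m := m)).ker (e (u : ZMod m)) := h5
      have h8 : QuotientAddGroup.mk' (bv (m := m)).ker S1 =
          ∑ u ∈ univ.filter (fun u : (ZMod m)ˣ => (u : ZMod m).val % 3 = 1),
            QuotientAddGroup.mk' (bv (m := m)).ker (e (u : ZMod m)) := by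
        rw [hS1, map_sum, sum_filter]
        refine sum_congr rfl fun u _ => ?_
        by_cases h : χ u = 1
        · rw [if_pos h, if_pos ((hχ1 u).1 h), one_smul]
        · rw [if_neg h, if_neg (fun h' => h ((hχ1 u).2 h')), zero_smul, map_zero]
      rw [hD, map_sub, map_add, h7, h8, sub_self]
    rw [QuotientAddGroup.mk'_apply, QuotientAddGroup.eq_zero_iff, AddMonoidHom.mem_ker] at h6
    exact h6
  -- the orbit condition
  have hgsum : ∑ u : (ZMod m)ˣ, (2 * w u + if χ u = 1 then c else 0) • (e (u : ZMod m) : A m) =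
      (2 : ℤ) • U + c • S1 := by
    rw [hw, hS1, smul_sum, smul_sum, ← sum_add_distrib]
    refine sum_congr rfl fun u _ => ?_
    rw [add_smul, mul_smul]
    congr 1
    split_ifs
    · rw [one_smul]
    · rw [zero_smul, smul_zero]
  have hgsum2 : ∑ u : (ZMod m)ˣ, (2 * w u + if χ u = 1 then c else 0) •
      (e (u : ZMod m) : A m) = (2 : ℤ) • v - (c • D + (2 : ℤ) • k) := by
    rw [hgsum, hv, hD]
    simp only [smul_add, smul_sub, smul_smul]
    rw [show (2 : ℤ) * c = c + c by ring, add_smul]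
    abel
  have hKbv : bv (c • D + (2 : ℤ) • k) = 0 := by
    rw [map_add, map_zsmul, map_zsmul, hDbv, hk, smul_zero, smul_zero, add_zero]
  have hK0 : (c • D + (2 : ℤ) • k) 0 = 0 := by
    rw [Finsupp.add_apply, Finsupp.smul_apply, Finsupp.smul_apply, hD0, hk0]
    simp
  have hW : ∀ u, orb P f (fun v => 2 * w v + if χ v = 1 then c else 0) (-u) =
      orb P f (fun v => 2 * w v + if χ v = 1 then c else 0) u := by
    refine orb_of_beta hm1 (fun χ' hodd => nonvan (Main35_nonvan hm) hodd) hf _ ?_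
    intro t
    rw [hgsum2, map_sub, map_zsmul, hb t, smul_zero, beta_of_bv hKbv hK0, sub_zero]
  -- parity
  set E : ℤ := ∑ u, w u * ((χ u : ℤˣ) : ℤ) with hE
  set σ : ℤ := ∑ u, w u with hσ
  have hcntU : ∀ g : (ZMod m)ˣ → ℤ,
      cnt (∑ u : (ZMod m)ˣ, g u • (e (u : ZMod m) : A m)) = ∑ u, g u := by
    intro g
    rw [map_sum]
    refine sum_congr rfl fun u _ => ?_
    rw [map_zsmul, cnt_e, smul_eq_mul, mul_one]
  have hcv : cnt v = σ + c + cnt k := by
    rw [hv, map_add, map_add, hw, hcntU, map_zsmul, hX, cnt_e, smul_eq_mul, mul_one]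
  have hEσ : (2 : ℤ) ∣ E - σ := by
    rw [hE, hσ, ← sum_sub_distrib]
    refine Finset.dvd_sum fun u _ => ?_
    rcases Int.units_eq_one_or (χ u) with h | h
    · rw [h]
      exact ⟨0, by simp⟩
    · rw [h]
      exact ⟨- w u, by simp; ring⟩
  have hkev : Even (cnt k) := even_of_bv hodd hk hk0
  have hceven : Even c := by
    have hσE : Even E ∨ Even σ := by
      rcases Int.units_eq_one_or (χ P) with hP | hP
      · left
        have h5 := comb_pos hf0 χ hχn hP w c hW
        obtain ⟨r, hr⟩ := Main35_card ha hb0 hm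
        rw [hr] at h5
        push_cast at h5
        exact ⟨- c * r, by rw [hE]; linarith⟩
      · right
        exact even_of_orb hm1 hp hf hf0 hneg w (comb_neg hf χ hP w c hW)
    have hσ2 : Even σ := by
      rcases hσE with h | h
      · obtain ⟨q, hq⟩ := h
        obtain ⟨q1, hq1⟩ := hEσ
        exact ⟨q - q1, by linarith⟩
      · exact h
    rw [hcv] at hcnt
    obtain ⟨q, hq⟩ := hcnt
    obtain ⟨q1, hq1⟩ := hkev
    obtain ⟨q2, hq2⟩ := hσ2
    exact ⟨q - q1 - q2, by linarith⟩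
  obtain ⟨d, hd⟩ := hceven
  have horb : ∀ u, orb P f (fun v => w v + if χ v = 1 then d else 0) (-u) =
      orb P f (fun v => w v + if χ v = 1 then d else 0) u := by
    intro u
    have h5 := hW u
    have h6 : (fun v => 2 * w v + if χ v = 1 then c else 0) =
        fun v => 2 * (w v + if χ v = 1 then d else 0) := by
      funext v
      split_ifs
      · rw [hd]; ring
      · ring
    rw [h6, Main35_orb P f (fun v => w v + if χ v = 1 then d else 0),
      Main35_orb P f (fun v => w v + if χ v = 1 then d else 0)] at h5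
    linarith
  have hmem := mem_of_orb hm1 hp hf hf0 hneg _ horb
  have hsum3 : ∑ u : (ZMod m)ˣ, (w u + if χ u = 1 then d else 0) • (e (u : ZMod m) : A m) =
      U + d • S1 := by
    rw [hw, hS1, smul_sum, ← sum_add_distrib]
    refine sum_congr rfl fun u _ => ?_
    rw [add_smul]
    congr 1
    split_ifs
    · rw [one_smul]
    · rw [zero_smul, smul_zero]
  rw [hsum3] at hmem
  have hvk : v - (d • D + k) = U + d • S1 := by
    rw [hv, hD, hd]
    simp only [smul_add, smul_sub, add_smul]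
    abel
  have hkb : bv (d • D + k) = 0 := by
    rw [map_add, map_zsmul, hDbv, hk, smul_zero, add_zero]
  have hkz : (d • D + k) 0 = 0 := by
    rw [Finsupp.add_apply, Finsupp.smul_apply, hD0, hk0]
    simp
  refine ⟨d • D + k, hkb, hkz, even_of_bv hodd hkb hkz, ?_⟩
  rw [hvk]
  exact hmem

end Pool.Agent.FermT
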