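import Pool.Agent.FermT.Defs

/-!
# FT6: the values of an odd distribution which vanishes on the units, two primes

Let `m = l₁ ^ a * l₂ ^ b` and let `f` be an odd distribution (`OddDist`) with `f u = 0` for all
units.

* `mixed`: `f x = 0` if neither `l₁ ^ a` nor `l₂ ^ b` divides `x.val`. Strong induction on
  `d = gcd (x.val, m)`. If `d = 1`, `x` is a unit. Otherwise a prime `l ∈ {l₁, l₂}` divides `d`, and
  `l * d ∣ m` (as `l₁ ^ a`, `l₂ ^ b` do not divide `d`). Write `x = l * z`; the elements `y` with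
  `l * y = x` have a smaller gcd (see the proof of `e_mem_genL` in `Stick/Gen2.lean`) and are again
  not divisible by `l₁ ^ a` or `l₂ ^ b` (if `l₁ ^ a ∣ y.val` then `l₁ ^ a ∣ x.val`, because
  `x.val ≡ l * y.val` modulo `m`). So `f x = ∑ f y = 0` by `hf.dist`.
* `level`: let `l₁` be odd and suppose that the powers of `l₂` are all units modulo `l₁ ^ a`. Then
  `f x = f (m / l₁)` for all `x` with `l₂ ^ b ∣ x.val`, `¬ l₁ ^ a ∣ x.val`. Proof: (1) `f (l₂ x) = f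
  x` for such `x`: `hf.dist l₂` at `x`: the `z ≠ x` with `l₂ z = l₂ x` are `x + i m / l₂`, `0 < i <
  l₂`, not divisible by `l₂ ^ b` nor by `l₁ ^ a`, so `f z = 0` by `mixed`. (2) So `f (l₂ ^ k x) = f
  x` for all `k`. If `y` is another such element with `gcd (y.val, m) = gcd (x.val, m)` then `y = l₂
  ^ k x` for some `k` (write `x.val = g * x'`, `y.val = g * y'`, `g = l₂ ^ b * l₁ ^ i`, `x'`, `y'`
  prime to `l₁`, and take `k` with `l₂ ^ k * x' ≡ y'` modulo `l₁ ^ a`: from `hgen` for a number `n`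
  with `n x' ≡ y'`). So `f y = f x`; with `y = -x`: `f x = - f x`, i.e. `f x + f x = 0`. (3) If `l₁
  x` is again such an element then the `l₁` elements `z` with `l₁ z = l₁ x` are such elements with
  the same gcd as `x`, so `f (l₁ x) = l₁ • f x = f x` (`l₁` odd and `f x + f x = 0`). (4) Repeating
  (3) one arrives at an element of gcd `m / l₁` (`x.val = g * x'`, `g = l₂ ^ b * l₁ ^ i`, multiply
  by `l₁ ^ (a - 1 - i)`), and by (2) its value is `f (m / l₁)`. -/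

set_option autoImplicit false

namespace Pool.Agent.FermT

open Finset Pool.Stick Pool.Agent.FermD

variable {m : ℕ} [NeZero m] {W : Type} [AddCommGroup W] {f : ZMod m → W}

private theorem Mixed_dvd {l₁ l₂ a b d l : ℕ} (h1 : l₁.Prime) (h2 : l₂.Prime)
    (hd : d ∣ l₁ ^ a * l₂ ^ b) (hd1 : ¬ l₁ ^ a ∣ d) (hd2 : ¬ l₂ ^ b ∣ d)
    (hl : l = l₁ ∨ l = l₂) : l * d ∣ l₁ ^ a * l₂ ^ b := by
  obtain ⟨d1, d2, g1, g2, rfl⟩ := (Nat.dvd_mul).1 hd
  obtain ⟨i, hi, rfl⟩ := (Nat.dvd_prime_pow h1).1 g1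
  obtain ⟨j, hj, rfl⟩ := (Nat.dvd_prime_pow h2).1 g2
  have hi' : i < a := by
    rcases hi.lt_or_eq with h | h
    · exact h
    · exact absurd (h ▸ Dvd.intro _ rfl) hd1
  have hj' : j < b := by
    rcases hj.lt_or_eq with h | h
    · exact h
    · exact absurd (h ▸ Dvd.intro_left _ rfl) hd2
  rcases hl with rfl | rfl
  · have h3 : l * (l ^ i * l₂ ^ j) = l ^ (i + 1) * l₂ ^ j := by ring
    rw [h3]
    exact Nat.mul_dvd_mul (pow_dvd_pow _ hi') (pow_dvd_pow _ hj)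
  · have h3 : l * (l₁ ^ i * l ^ j) = l₁ ^ i * l ^ (j + 1) := by ring
    rw [h3]
    exact Nat.mul_dvd_mul (pow_dvd_pow _ hi) (pow_dvd_pow _ hj')

private theorem Mixed_aux {l₁ l₂ a b : ℕ} (h1 : l₁.Prime) (h2 : l₂.Prime)
    (hm : m = l₁ ^ a * l₂ ^ b) (hf : OddDist f) (hu : ∀ u : (ZMod m)ˣ, f (u : ZMod m) = 0)
    (N : ℕ) : ∀ x : ZMod m, ¬ l₁ ^ a ∣ x.val → ¬ l₂ ^ b ∣ x.val → Nat.gcd x.val m ≤ N →
      f x = 0 := by
  have hm1 : l₁ ^ a ∣ m := hm ▸ Dvd.intro _ rfl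
  have hm2 : l₂ ^ b ∣ m := hm ▸ Dvd.intro_left _ rfl
  induction N with
  | zero =>
    intro x _ _ h
    have : 0 < Nat.gcd x.val m := Nat.gcd_pos_of_pos_right _ (NeZero.pos m)
    omega
  | succ N ih =>
    intro x hx1 hx2 h
    set d := Nat.gcd x.val m with hd
    have hd0 : 0 < d := Nat.gcd_pos_of_pos_right _ (NeZero.pos m)
    by_cases hd1 : d = 1
    · have hcop : x.val.Coprime m := hd1
      have h3 := hu (ZMod.unitOfCoprime x.val hcop)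
      rwa [ZMod.coe_unitOfCoprime, ZMod.natCast_zmod_val] at h3
    obtain ⟨l, hl, hld⟩ := Nat.exists_prime_and_dvd hd1
    have hdm : d ∣ m := Nat.gcd_dvd_right _ _
    have hlm : l ∣ m := hld.trans hdm
    have hdx : d ∣ x.val := Nat.gcd_dvd_left _ _
    have hl12 : l = l₁ ∨ l = l₂ := by
      have h3 : l ∣ l₁ ^ a * l₂ ^ b := hm ▸ hlm
      rcases (Nat.Prime.dvd_mul hl).1 h3 with h4 | h4
      · exact Or.inl ((Nat.prime_dvd_prime_iff_eq hl h1).1 (hl.dvd_of_dvd_pow h4))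
      · exact Or.inr ((Nat.prime_dvd_prime_iff_eq hl h2).1 (hl.dvd_of_dvd_pow h4))
    have hcase : l * d ∣ m := by
      rw [hm]
      exact Mixed_dvd h1 h2 (hm ▸ hdm) (fun h3 => hx1 (h3.trans hdx))
        (fun h3 => hx2 (h3.trans hdx)) hl12
    obtain ⟨z0, hz0⟩ := hld.trans hdx
    set z : ZMod m := (z0 : ZMod m) with hz
    have hlz : (l : ZMod m) * z = x := by
      rw [hz, ← Nat.cast_mul, ← hz0, ZMod.natCast_zmod_val]
    have hmod : ∀ y : ZMod m, (l : ZMod m) * y = x → l * y.val ≡ x.val [MOD m] := by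
      intro y hy
      refine (ZMod.natCast_eq_natCast_iff _ _ _).1 ?_
      rw [Nat.cast_mul, ZMod.natCast_zmod_val, ZMod.natCast_zmod_val, hy]
    have hlt : ∀ y : ZMod m, (l : ZMod m) * y = x → Nat.gcd y.val m < d := by
      intro y hy
      have h3 : Nat.gcd (l * y.val) m = d := (hmod y hy).gcd_eq
      have h4 : Nat.gcd y.val m ∣ d := by
        rw [← h3]
        exact Nat.gcd_dvd_gcd_mul_left_left _ _ _
      refine lt_of_le_of_ne (Nat.le_of_dvd hd0 h4) fun h5 => ?_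
      have h6 : d ∣ y.val := by rw [← h5]; exact Nat.gcd_dvd_left _ _
      have h7 : l * d ∣ Nat.gcd (l * y.val) m := Nat.dvd_gcd (Nat.mul_dvd_mul_left l h6) hcase
      rw [h3] at h7
      have h8 := Nat.le_of_dvd hd0 h7
      have h9 := hl.two_le
      nlinarith
    have hdist := hf.dist l hl hlm z
    rw [hlz] at hdist
    rw [← hdist]
    refine sum_eq_zero fun y hy => ?_
    rw [mem_filter] at hy
    refine ih y ?_ ?_ ?_
    · intro h3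
      exact hx1 (((hmod y hy.2).dvd_iff hm1).1 (h3.mul_left l))
    · intro h3
      exact hx2 (((hmod y hy.2).dvd_iff hm2).1 (h3.mul_left l))
    · have := hlt y hy.2
      omega

theorem mixed {l₁ l₂ a b : ℕ} (h1 : l₁.Prime) (h2 : l₂.Prime) (h12 : l₁ ≠ l₂)
    (hm : m = l₁ ^ a * l₂ ^ b) (hf : OddDist f) (hu : ∀ u : (ZMod m)ˣ, f (u : ZMod m) = 0)
    (x : ZMod m) (hx1 : ¬ l₁ ^ a ∣ x.val) (hx2 : ¬ l₂ ^ b ∣ x.val) : f x = 0 :=
  Mixed_aux h1 h2 hm hf hu _ x hx1 hx2 le_rfl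

/-- (1) -/
private theorem Mixed_one {l₁ l₂ a b : ℕ} (h1 : l₁.Prime) (h2 : l₂.Prime) (h12 : l₁ ≠ l₂)
    (hb : 0 < b) (hm : m = l₁ ^ a * l₂ ^ b)
    (hf : OddDist f) (hu : ∀ u : (ZMod m)ˣ, f (u : ZMod m) = 0) {n : ℕ} (hn : ¬ l₁ ^ a ∣ n) :
    f ((l₂ ^ b * (l₂ * n) : ℕ) : ZMod m) = f ((l₂ ^ b * n : ℕ) : ZMod m) := by
  have hcop : Nat.Coprime l₁ l₂ := (Nat.coprime_primes h1 h2).2 h12
  have hm1 : l₁ ^ a ∣ m := hm ▸ Dvd.intro _ rfl
  have hm2 : l₂ ^ b ∣ m := hm ▸ Dvd.intro_left _ rfl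
  have hl2m : l₂ ∣ m := (dvd_pow_self l₂ hb.ne').trans hm2
  have hdist := hf.dist l₂ h2 hl2m ((l₂ ^ b * n : ℕ) : ZMod m)
  have h3 : (l₂ : ZMod m) * ((l₂ ^ b * n : ℕ) : ZMod m) = ((l₂ ^ b * (l₂ * n) : ℕ) : ZMod m) := by
    push_cast
    ring
  rw [sum_eq_single ((l₂ ^ b * n : ℕ) : ZMod m)] at hdist
  · rw [← h3, ← hdist]
  · intro z hz hne
    rw [mem_filter] at hz
    have hmod : l₂ * z.val ≡ l₂ * (l₂ ^ b * n) [MOD m] := by
      refine (ZMod.natCast_eq_natCast_iff _ _ _).1 ?_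
      rw [Nat.cast_mul, ZMod.natCast_zmod_val, hz.2]
      exact (Nat.cast_mul _ _).symm
    have hmod1 : l₂ * z.val ≡ l₂ * (l₂ ^ b * n) [MOD l₁ ^ a] := hmod.of_dvd hm1
    have hmod2 : z.val ≡ l₂ ^ b * n [MOD l₁ ^ a] :=
      Nat.ModEq.cancel_left_of_coprime (Nat.Coprime.pow_left a hcop) hmod1
    refine mixed h1 h2 h12 hm hf hu z ?_ ?_
    · intro h4
      have h5 := (hmod2.dvd_iff dvd_rfl).1 h4
      exact hn ((Nat.Coprime.dvd_of_dvd_mul_left (Nat.Coprime.pow a b hcop)) h5)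
    · intro h4
      apply hne
      have h5 : z.val ≡ l₂ ^ b * n [MOD l₂ ^ b] :=
        ((Nat.modEq_zero_iff_dvd).2 h4).trans
          ((Nat.modEq_zero_iff_dvd).2 (Dvd.intro _ rfl)).symm
      have h6 := (Nat.modEq_and_modEq_iff_modEq_mul (Nat.Coprime.pow a b hcop)).1 ⟨hmod2, h5⟩
      rw [← hm] at h6
      have h7 := (ZMod.natCast_eq_natCast_iff _ _ _).2 h6
      rwa [ZMod.natCast_zmod_val] at h7
  · intro h4
    exact (h4 (mem_filter.2 ⟨mem_univ _, rfl⟩)).elim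

private theorem Mixed_pow {l₁ l₂ a b : ℕ} (h1 : l₁.Prime) (h2 : l₂.Prime) (h12 : l₁ ≠ l₂)
    (hb : 0 < b) (hm : m = l₁ ^ a * l₂ ^ b)
    (hf : OddDist f) (hu : ∀ u : (ZMod m)ˣ, f (u : ZMod m) = 0) {n : ℕ} (hn : ¬ l₁ ^ a ∣ n)
    (k : ℕ) :
    f ((l₂ ^ b * (l₂ ^ k * n) : ℕ) : ZMod m) = f ((l₂ ^ b * n : ℕ) : ZMod m) := by
  have hcop : Nat.Coprime l₁ l₂ := (Nat.coprime_primes h1 h2).2 h12
  induction k with
  | zero => rw [pow_zero, one_mul]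
  | succ k ih =>
    have h3 : l₂ ^ (k + 1) * n = l₂ * (l₂ ^ k * n) := by ring
    rw [h3, Mixed_one h1 h2 h12 hb hm hf hu, ih]
    intro h4
    exact hn ((Nat.Coprime.dvd_of_dvd_mul_left (Nat.Coprime.pow a k hcop)) h4)

/-- (2) -/
private theorem Mixed_two {l₁ l₂ a b : ℕ} (h1 : l₁.Prime) (h2 : l₂.Prime) (h12 : l₁ ≠ l₂)
    (hb : 0 < b) (hm : m = l₁ ^ a * l₂ ^ b)
    (hgen : ∀ n : ℕ, n.Coprime l₁ → ∃ k : ℕ, l₂ ^ k ≡ n [MOD l₁ ^ a])
    (hf : OddDist f) (hu : ∀ u : (ZMod m)ˣ, f (u : ZMod m) = 0) {i u : ℕ} (hi : i < a)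
    (huc : u.Coprime l₁) :
    f ((l₂ ^ b * (l₁ ^ i * u) : ℕ) : ZMod m) = f ((l₂ ^ b * l₁ ^ i : ℕ) : ZMod m) := by
  obtain ⟨k, hk⟩ := hgen u huc
  have hn : ¬ l₁ ^ a ∣ l₁ ^ i := by
    intro h3
    have := (Nat.pow_dvd_pow_iff_le_right h1.one_lt).1 h3
    omega
  rw [← Mixed_pow h1 h2 h12 hb hm hf hu hn k]
  congr 1
  refine (ZMod.natCast_eq_natCast_iff _ _ _).2 ?_
  have h3 : l₁ ^ i * u ≡ l₂ ^ k * l₁ ^ i [MOD l₁ ^ a] := by
    rw [mul_comm (l₂ ^ k)]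
    exact (hk.symm).mul_left _
  have h4 := h3.mul_left' (l₂ ^ b)
  rwa [hm, mul_comm (l₁ ^ a)]

private theorem Mixed_odd_smul {l : ℕ} (hl : Odd l) {w : W} (hw : w + w = 0) : l • w = w := by
  obtain ⟨k, rfl⟩ := hl
  rw [add_smul, one_smul, mul_comm, mul_smul, two_smul, hw, smul_zero, zero_add]

theorem level {l₁ l₂ a b : ℕ} (h1 : l₁.Prime) (h2 : l₂.Prime) (h12 : l₁ ≠ l₂) (hodd : l₁ ≠ 2)
    (ha : 0 < a) (hb : 0 < b) (hm : m = l₁ ^ a * l₂ ^ b)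
    (hgen : ∀ n : ℕ, n.Coprime l₁ → ∃ k : ℕ, l₂ ^ k ≡ n [MOD l₁ ^ a])
    (hf : OddDist f) (hu : ∀ u : (ZMod m)ˣ, f (u : ZMod m) = 0)
    (x : ZMod m) (hx1 : ¬ l₁ ^ a ∣ x.val) (hx2 : l₂ ^ b ∣ x.val) :
    f x = f ((m / l₁ : ℕ) : ZMod m) := by
  have hcop : Nat.Coprime l₁ l₂ := (Nat.coprime_primes h1 h2).2 h12
  have hlodd : Odd l₁ := h1.odd_of_ne_two hodd
  have hl1m : l₁ ∣ m := by
    rw [hm]
    exact (dvd_pow_self l₁ ha.ne').mul_right _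
  have hpow : l₁ ^ a = l₁ * l₁ ^ (a - 1) := by
    rw [← pow_succ', Nat.sub_add_cancel ha]
  -- `2 G_i = 0`
  have hG2 : ∀ i, i < a → f ((l₂ ^ b * l₁ ^ i : ℕ) : ZMod m) +
      f ((l₂ ^ b * l₁ ^ i : ℕ) : ZMod m) = 0 := by
    intro i hi
    have hpos : 1 ≤ l₁ ^ a := Nat.one_le_pow _ _ h1.pos
    have hc : (l₁ ^ a - 1).Coprime l₁ := by
      refine Nat.Coprime.symm ((Nat.Prime.coprime_iff_not_dvd h1).2 fun h3 => ?_)
      have h4 : l₁ ∣ l₁ ^ a := dvd_pow_self l₁ ha.ne'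
      have h5 := (Nat.dvd_sub h4 h3)
      have h6 : l₁ ^ a - (l₁ ^ a - 1) = 1 := by omega
      rw [h6] at h5
      exact h1.one_lt.ne' (Nat.dvd_one.1 h5)
    have h3 := Mixed_two h1 h2 h12 hb hm hgen hf hu hi hc
    have h4 : ((l₂ ^ b * (l₁ ^ i * (l₁ ^ a - 1)) : ℕ) : ZMod m) =
        -((l₂ ^ b * l₁ ^ i : ℕ) : ZMod m) := by
      rw [eq_neg_iff_add_eq_zero, ← Nat.cast_add, ZMod.natCast_eq_zero_iff]
      have h5 : l₂ ^ b * (l₁ ^ i * (l₁ ^ a - 1)) + l₂ ^ b * l₁ ^ i = m * l₁ ^ i := by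
        have h6 : l₂ ^ b * (l₁ ^ i * (l₁ ^ a - 1)) + l₂ ^ b * l₁ ^ i =
            l₂ ^ b * l₁ ^ i * ((l₁ ^ a - 1) + 1) := by ring
        rw [h6, Nat.sub_add_cancel hpos, hm]
        ring
      rw [h5]
      exact Dvd.intro _ rfl
    rw [h4, hf.odd] at h3
    nth_rewrite 1 [← h3]
    exact neg_add_cancel _
  have hstep : ∀ i, i + 1 < a → f ((l₂ ^ b * l₁ ^ (i + 1) : ℕ) : ZMod m) =
      f ((l₂ ^ b * l₁ ^ i : ℕ) : ZMod m) := by
    intro i hi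
    have hdist := hf.dist l₁ h1 hl1m ((l₂ ^ b * l₁ ^ i : ℕ) : ZMod m)
    have h3 : (l₁ : ZMod m) * ((l₂ ^ b * l₁ ^ i : ℕ) : ZMod m) =
        ((l₂ ^ b * l₁ ^ (i + 1) : ℕ) : ZMod m) := by
      push_cast
      ring
    have hmM : m = l₁ * (l₂ ^ b * l₁ ^ (a - 1)) := by
      rw [hm, hpow]
      ring
    have hall : ∀ z ∈ univ.filter (fun z : ZMod m => (l₁ : ZMod m) * z =
        l₁ * ((l₂ ^ b * l₁ ^ i : ℕ) : ZMod m)), f z = f ((l₂ ^ b * l₁ ^ i : ℕ) : ZMod m) := by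
      intro z hz
      rw [mem_filter] at hz
      have hmod : l₁ * z.val ≡ l₁ * (l₂ ^ b * l₁ ^ i) [MOD l₁ * (l₂ ^ b * l₁ ^ (a - 1))] := by
        rw [← hmM]
        refine (ZMod.natCast_eq_natCast_iff _ _ _).1 ?_
        rw [Nat.cast_mul, ZMod.natCast_zmod_val, hz.2]
        exact (Nat.cast_mul _ _).symm
      have hmod2 : z.val ≡ l₂ ^ b * l₁ ^ i [MOD l₂ ^ b * l₁ ^ (a - 1)] :=
        Nat.ModEq.mul_left_cancel' h1.ne_zero hmod
      have h4 : l₂ ^ b ∣ z.val :=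
        (hmod2.dvd_iff (Dvd.intro _ rfl)).2 (Dvd.intro _ rfl)
      obtain ⟨n, hn⟩ := h4
      rw [hn] at hmod2
      have hmod3 : n ≡ l₁ ^ i [MOD l₁ ^ (a - 1)] :=
        Nat.ModEq.mul_left_cancel' (pow_pos h2.pos b).ne' hmod2
      have h5 : l₁ ^ i ∣ n :=
        (hmod3.dvd_iff (pow_dvd_pow _ (by omega))).2 dvd_rfl
      obtain ⟨u, hu'⟩ := h5
      have hsplit : l₁ ^ (a - 1) = l₁ ^ i * l₁ ^ (a - 1 - i) := by
        rw [← pow_add]
        congr 1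
        omega
      rw [hu', hsplit] at hmod3
      have hmod4 : u ≡ 1 [MOD l₁ ^ (a - 1 - i)] := by
        refine Nat.ModEq.mul_left_cancel' (c := l₁ ^ i) (pow_pos h1.pos i).ne' ?_
        rwa [mul_one]
      have hmod5 : u ≡ 1 [MOD l₁] := hmod4.of_dvd (dvd_pow_self l₁ (by omega))
      have huc : u.Coprime l₁ := by
        have h6 := hmod5.gcd_eq
        rw [Nat.gcd_one_left] at h6
        exact h6
      have h7 := Mixed_two h1 h2 h12 hb hm hgen hf hu (by omega : i < a) huc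
      rw [← h7, ← hu', ← hn, ZMod.natCast_zmod_val]
    rw [sum_congr rfl hall, sum_const, card_fibre hmM h1.pos,
      Mixed_odd_smul hlodd (hG2 i (by omega)), h3] at hdist
    exact hdist.symm
  have hlast : ∀ j, j < a → f ((l₂ ^ b * l₁ ^ (a - 1 - j) : ℕ) : ZMod m) =
      f ((l₂ ^ b * l₁ ^ (a - 1) : ℕ) : ZMod m) := by
    intro j
    induction j with
    | zero =>
      intro _
      rw [Nat.sub_zero]
    | succ j ih =>
      intro hj
      rw [← ih (by omega), ← hstep (a - 1 - (j + 1)) (by omega)]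
      congr 4
      omega
  obtain ⟨n, hn⟩ := hx2
  have hxn : x = ((l₂ ^ b * n : ℕ) : ZMod m) := by
    rw [← hn, ZMod.natCast_zmod_val]
  have hna : ¬ l₁ ^ a ∣ n := fun h3 => hx1 (by rw [hn]; exact h3.mul_left _)
  have hn0 : n ≠ 0 := by
    rintro rfl
    exact hna (dvd_zero _)
  obtain ⟨i, u, hu', hni⟩ := Nat.exists_eq_pow_mul_and_not_dvd hn0 l₁ h1.ne_one
  have hia : i < a := by
    by_contra hcon
    exact hna (by
      rw [hni]
      exact (pow_dvd_pow _ (not_lt.1 hcon)).mul_right _)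
  have huc : u.Coprime l₁ := ((Nat.Prime.coprime_iff_not_dvd h1).2 hu').symm
  rw [hxn, hni, Mixed_two h1 h2 h12 hb hm hgen hf hu hia huc]
  have h3 := hlast (a - 1 - i) (by omega)
  have h4 : a - 1 - (a - 1 - i) = i := by omega
  rw [h4] at h3
  rw [h3]
  congr 2
  rw [hm, hpow, mul_assoc, Nat.mul_div_cancel_left _ h1.pos]
  ring

end Pool.Agent.FermT
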